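import Pool.Agent.Work.MP_891b03_co.Pair

set_option autoImplicit false
set_option linter.unusedSectionVars false
open Finset

namespace Pool.Agent.Work.MP_891b03_co

section
variable {n : ℕ} (X : SimpleGraph (Fin n))

/-- oriented edges -/
abbrev EX : Type := {p : Fin n × Fin n // p.1 < p.2 ∧ X.Adj p.1 p.2}

/-- source -/
def sX : EX X → Fin n := fun e => e.1.1
/-- target -/
def tX : EX X → Fin n := fun e => e.1.2

lemma hXadj (e : EX X) : X.Adj (sX X e) (tX X e) := e.2.2

lemma adj_edge (a b : Fin n) (h : X.Adj a b) :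
    ∃ e : EX X, (a = sX X e ∧ b = tX X e) ∨ (a = tX X e ∧ b = sX X e) := by
  rcases lt_or_gt_of_ne h.ne with hlt | hlt
  · exact ⟨⟨(a, b), hlt, h⟩, Or.inl ⟨rfl, rfl⟩⟩
  · exact ⟨⟨(b, a), hlt, h.symm⟩, Or.inr ⟨rfl, rfl⟩⟩

lemma hXne (e : EX X) : sX X e ≠ tX X e := (hXadj X e).ne

lemma hXsimple (e e' : EX X) (h1 : sX X e = sX X e' ∨ sX X e = tX X e')
    (h2 : tX X e = sX X e' ∨ tX X e = tX X e') : e = e' := by
  obtain ⟨⟨a, b⟩, hab, _⟩ := e
  obtain ⟨⟨c, d⟩, hcd, _⟩ := e'
  simp only [sX, tX] at h1 h2 hab hcd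
  have : a = c ∧ b = d := by
    rcases h1 with rfl | rfl <;> rcases h2 with rfl | rfl
    · exact absurd hab (lt_irrefl _)
    · exact ⟨rfl, rfl⟩
    · exact absurd (hab.trans hcd) (lt_irrefl _)
    · exact absurd hab (lt_irrefl _)
  obtain ⟨rfl, rfl⟩ := this
  rfl

lemma hXtri (g : ℕ) (hg : 3 ≤ g) (hodd : OddFree g X) (z : Fin n) (e : EX X)
    (h1 : ∃ f : EX X, (z = sX X f ∧ sX X e = tX X f) ∨ (z = tX X f ∧ sX X e = sX X f))
    (h2 : ∃ f : EX X, (z = sX X f ∧ tX X e = tX X f) ∨ (z = tX X f ∧ tX X e = sX X f)) :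
    False := by
  have a1 : X.Adj z (sX X e) := by
    obtain ⟨f, ⟨rfl, h⟩ | ⟨rfl, h⟩⟩ := h1
    · rw [h]; exact hXadj X f
    · rw [h]; exact (hXadj X f).symm
  have a2 : X.Adj z (tX X e) := by
    obtain ⟨f, ⟨rfl, h⟩ | ⟨rfl, h⟩⟩ := h2
    · rw [h]; exact hXadj X f
    · rw [h]; exact (hXadj X f).symm
  have := hodd z (SimpleGraph.Walk.cons a1 (SimpleGraph.Walk.cons (hXadj X e)
    (SimpleGraph.Walk.cons a2.symm SimpleGraph.Walk.nil))) (by simp; omega)
  rw [Nat.even_iff] at this
  simp at this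

noncomputable instance : Fintype (EX X) := Fintype.ofFinite _

lemma card_EX_le : Fintype.card (EX X) ≤ ∑ v, (nb X v).card := by
  classical
  let f : EX X → (Finset.univ : Finset (Fin n)).sigma (fun v => nb X v) := fun e =>
    ⟨⟨e.1.1, e.1.2⟩, by rw [Finset.mem_sigma]; exact ⟨Finset.mem_univ _, (mem_nb X _ _).2 e.2.2⟩⟩
  have hf : Function.Injective f := by
    rintro ⟨⟨a, b⟩, _⟩ ⟨⟨c, d⟩, _⟩ h
    simp only [f, Subtype.mk.injEq, Sigma.mk.injEq, heq_eq_eq] at h
    obtain ⟨rfl, rfl⟩ := h
    rfl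
  have := Fintype.card_le_of_injective f hf
  rw [Fintype.card_coe, Finset.card_sigma] at this
  exact this

lemma inc_card (v : Fin n) : {e : EX X | v = sX X e ∨ v = tX X e}.ncard ≤ (nb X v).card := by
  classical
  let f : EX X → Fin n := fun e => if v = sX X e then tX X e else sX X e
  have h1 : ∀ e ∈ {e : EX X | v = sX X e ∨ v = tX X e}, f e ∈ ((nb X v : Finset (Fin n)) : Set (Fin n)) := by
    intro e he
    rw [Finset.mem_coe, mem_nb]
    simp only [f]
    split_ifs with h
    · rw [h]; exact hXadj X e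
    · have : v = tX X e := he.resolve_left h
      rw [this]; exact (hXadj X e).symm
  have h2 : Set.InjOn f {e : EX X | v = sX X e ∨ v = tX X e} := by
    intro e he e' he' hee
    apply hXsimple X e e'
    · by_cases h : v = sX X e
      · rw [← h]; exact he'
      · simp only [f, if_neg h] at hee
        rw [hee]
        split_ifs with h'
        · right; rfl
        · left; rfl
    · by_cases h : v = sX X e
      · simp only [f, if_pos h] at hee
        rw [hee]
        split_ifs with h'
        · right; rfl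
        · left; rfl
      · have : v = tX X e := he.resolve_left h
        rw [← this]; exact he'
  have h3 := Set.ncard_le_ncard_of_injOn f h1 h2 (Finset.finite_toSet _)
  rwa [Set.ncard_coe_finset] at h3

end

/-- the constant bounding all degrees -/
def DD : ℕ := 6 * (2016 * 2) + 4

/-- For every `r` there are two graphs with the same statistics up to radius `r`
and rewiring costs differing by at least `1/1020`. -/
theorem exists_pair (r : ℕ) :
    ∃ A B : Σ N : ℕ, SimpleGraph (Fin N),
      A.2.Connected ∧ B.2.Connected ∧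
      (∀ v, (A.2.neighborSet v).ncard ≤ DD) ∧ (∀ v, (B.2.neighborSet v).ncard ≤ DD) ∧
      (∀ r' ≤ r, ∀ k F o, statS A r' k F o = statS B r' k F o) ∧
      costS B + 1 / 1020 ≤ costS A := by
  classical
  obtain ⟨m, X, hconn, hodd, hdeg, hsum, hind⟩ := exists_base (2 * r + 4)
  have hsingle : 3 ≤ m + 1 := by
    have := hind {0} (by
      intro a ha b hb
      rw [Finset.mem_singleton] at ha hb
      subst ha; subst hb
      exact X.irrefl)
    simpa using this
  have hinc : ∀ v : Fin (m + 1), ∃ e : EX X, v = sX X e ∨ v = tX X e := by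
    intro v
    have : Nontrivial (Fin (m + 1)) := Fin.nontrivial_iff_two_le.2 (by omega)
    obtain ⟨w, hw⟩ := exists_ne v
    obtain ⟨p⟩ := hconn.preconnected v w
    cases p with
    | nil => exact absurd rfl hw
    | cons h q =>
      obtain ⟨e, he⟩ := adj_edge X _ _ h
      exact ⟨e, he.imp (fun h => h.1) (fun h => h.1)⟩
  have hincc : ∀ v : Fin (m + 1) × Bool, ∃ e : EX X × Bool, v = csrc (sX X) e ∨ v = ctgt (tX X) e := by
    rintro ⟨v, s⟩
    obtain ⟨e, he | he⟩ := hinc v
    · exact ⟨(e, s), Or.inl (by simp [csrc, he])⟩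
    · exact ⟨(e, !s), Or.inr (by simp [ctgt, he])⟩
  have hnec : ∀ e : EX X × Bool, csrc (sX X) e ≠ ctgt (tX X) e := by
    rintro ⟨e, s⟩ h
    have := congrArg Prod.snd h
    simp [csrc, ctgt] at this
  set GA := Gad (sX X) (tX X) with hGA
  set GB := Gad (csrc (sX X)) (ctgt (tX X)) with hGB
  have hA : GA.Connected := gad_connected (sX X) (tX X) X (adj_edge X) hinc hconn
  have hB : GB.Connected := by
    refine gad_connected (csrc (sX X)) (ctgt (tX X)) (dbl X) ?_ hincc
      (dbl_connected X hconn (by simpa using hind))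
    rintro ⟨u, s⟩ ⟨w, t⟩ ⟨h1, h2⟩
    obtain ⟨e, ⟨he1, he2⟩ | ⟨he1, he2⟩⟩ := adj_edge X _ _ h1
    · refine ⟨(e, s), Or.inl ⟨?_, ?_⟩⟩
      · simp only at he1; simp [csrc, he1]
      · simp only at he2 h2
        simp only [ctgt, Prod.mk.injEq]
        exact ⟨he2, by cases s <;> cases t <;> simp_all⟩
    · refine ⟨(e, t), Or.inr ⟨?_, ?_⟩⟩
      · simp only at he1 h2
        simp only [ctgt, Prod.mk.injEq]
        exact ⟨he1, by cases s <;> cases t <;> simp_all⟩
      · simp only at he2; simp [csrc, he2]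
  have hincard : ∀ v : Fin (m + 1), {e : EX X | v = sX X e ∨ v = tX X e}.ncard ≤ 2016 := fun v =>
    (inc_card X v).trans (hdeg v)
  have hEcard : Fintype.card (EX X) ≤ 28 * (m + 1) := (card_EX_le X).trans hsum
  refine ⟨toFin GA, toFin GB, toFin_connected GA hA, toFin_connected GB hB, ?_, ?_, ?_, ?_⟩
  · intro v
    rw [toFin_degree]
    refine (gad_degree (sX X) (tX X) 2016 hincard _).trans ?_
    unfold DD; omega
  · intro v
    rw [toFin_degree]
    exact gad_degree _ _ (2016 * 2) (cover_inc (sX X) (tX X) 2016 hincard) _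
  · intro r' hr' k F o
    rw [toFin_stat GA hA, toFin_stat GB hB]
    have hodd' : OddFree (2 * r' + 2) X := fun v p hp => hodd v p (by omega)
    have h1 : {x | BallIso GB r' x F o}.ncard = {x | BallIso GA r' x F o}.ncard * 2 := by
      rw [← ncard_cover (fun x => BallIso GA r' x F o)]
      congr 1
      ext x
      exact ((cover_ball (sX X) (tX X) X (hXadj X) hconn hA hB r' hodd' x).iso_iff F o).symm
    rw [h1]
    have h2 : Fintype.card (((Fin (m + 1) × Bool) × Bool) ⊕ ((EX X × Bool) × Fin 6))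
        = Fintype.card ((Fin (m + 1) × Bool) ⊕ (EX X × Fin 6)) * 2 := by
      simp only [Fintype.card_sum, Fintype.card_prod, Fintype.card_bool]
      ring
    rw [h2]
    push_cast
    rw [mul_div_mul_right _ _ (by norm_num : (2 : ℝ) ≠ 0)]
  · -- costs
    set M : ℕ := Fintype.card (EX X) with hM
    have hcardA : Fintype.card ((Fin (m + 1) × Bool) ⊕ (EX X × Fin 6)) = 2 * (m + 1) + 6 * M := by
      simp only [Fintype.card_sum, Fintype.card_prod, Fintype.card_bool, Fintype.card_fin]
      ring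
    have hcardB : Fintype.card (((Fin (m + 1) × Bool) × Bool) ⊕ ((EX X × Bool) × Fin 6))
        = 2 * (2 * (m + 1) + 6 * M) := by
      simp only [Fintype.card_sum, Fintype.card_prod, Fintype.card_bool, Fintype.card_fin]
      ring
    have hlow := cost_lower GA hA (8 * (M : ℝ) + 2 / 3 * ((m : ℝ) + 1)) (by
      intro H h1 h2
      obtain ⟨C, hC1, hC2⟩ := gad_lower (sX X) (tX X) H h1 (hXne X) (hXsimple X)
        (fun z e _ _ a b => hXtri X _ (by omega) hodd z e a b) h2
      have hS := hind (Finset.univ \ C) (by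
        intro a ha b hb hab
        simp only [Finset.mem_sdiff, Finset.mem_univ, true_and] at ha hb
        obtain ⟨e, ⟨rfl, rfl⟩ | ⟨rfl, rfl⟩⟩ := adj_edge X _ _ hab
        · rcases hC1 e with h | h
          · exact ha h
          · exact hb h
        · rcases hC1 e with h | h
          · exact hb h
          · exact ha h)
      rw [Finset.card_sdiff_of_subset (Finset.subset_univ _), Finset.card_univ,
        Fintype.card_fin] at hS
      have hC3 : C.card ≤ m + 1 := by
        have := Finset.card_le_univ C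
        rwa [Fintype.card_fin] at this
      have h5 : 2 * (m + 1) ≤ 3 * C.card := by omega
      have h6 : ((8 * M + C.card : ℕ) : ℝ) ≤ (H.edgeSet.ncard : ℝ) := by exact_mod_cast hC2
      have h7 : ((2 * (m + 1) : ℕ) : ℝ) ≤ ((3 * C.card : ℕ) : ℝ) := by exact_mod_cast h5
      push_cast at h6 h7
      linarith)
    have hup := cost_upper GB hB (8 * (2 * M) + (m + 1)) (by
      set C : Finset (Fin (m + 1) × Bool) := Finset.univ.filter (fun v => v.2 = false) with hC
      have hcov : ∀ e : EX X × Bool, csrc (sX X) e ∈ C ∨ ctgt (tX X) e ∈ C := by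
        rintro ⟨e, s⟩
        cases s
        · left; simp [hC, csrc]
        · right; simp [hC, ctgt]
      have hCcard : C.card = m + 1 := by
        have : C = (Finset.univ : Finset (Fin (m + 1))) ×ˢ ({false} : Finset Bool) := by
          ext ⟨v, s⟩; simp [hC]
        rw [this, Finset.card_product]
        simp
      refine ⟨econ (csrc (sX X)) (ctgt (tX X)) C,
        econ_near _ _ C hnec hcov, gad_near _ _ C hincc, ?_⟩
      have := econ_card (csrc (sX X)) (ctgt (tX X)) C
      rw [hCcard, Fintype.card_prod, Fintype.card_bool] at this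
      omega)
    rw [hcardA] at hlow
    rw [hcardB] at hup
    refine le_trans ?_ hlow
    have hMr : (M : ℝ) ≤ 28 * ((m : ℝ) + 1) := by exact_mod_cast hEcard
    have hM0 : (0 : ℝ) ≤ M := Nat.cast_nonneg _
    have hm0 : (0 : ℝ) ≤ m := Nat.cast_nonneg _
    push_cast at hup ⊢
    have hpos : (0 : ℝ) < 2 * ((m : ℝ) + 1) + 6 * M := by positivity
    have hup' : costS (toFin GB) ≤ (8 * (M : ℝ) + 1 / 2 * ((m : ℝ) + 1)) / (2 * ((m : ℝ) + 1) + 6 * M) := by
      refine hup.trans (le_of_eq ?_)
      rw [div_eq_div_iff (by positivity) (by positivity)]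
      ring
    have hgap : (8 * (M : ℝ) + 1 / 2 * ((m : ℝ) + 1)) / (2 * ((m : ℝ) + 1) + 6 * M) + 1 / 1020
        ≤ (8 * (M : ℝ) + 2 / 3 * ((m : ℝ) + 1)) / (2 * ((m : ℝ) + 1) + 6 * M) := by
      rw [div_add_div _ _ hpos.ne' (by norm_num), div_le_div_iff₀ (by positivity) hpos]
      nlinarith
    linarith

end Pool.Agent.Work.MP_891b03_co
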