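import Pool.Agent.Work.MP_891b03_co.Greedy

set_option autoImplicit false
set_option linter.unusedSectionVars false
open Finset

namespace Pool.Agent.Work.MP_891b03_co

lemma nb_path_card (m : ℕ) (v : Fin (m + 1)) : (nb (SimpleGraph.pathGraph (m + 1)) v).card ≤ 2 := by
  classical
  have h1 : ((nb (SimpleGraph.pathGraph (m + 1)) v).image (fun w => w.val)).card
      = (nb (SimpleGraph.pathGraph (m + 1)) v).card :=
    Finset.card_image_of_injective _ Fin.val_injective
  rw [← h1]
  have h2 : (nb (SimpleGraph.pathGraph (m + 1)) v).image (fun w => w.val)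
      ⊆ {v.val + 1, v.val - 1} := by
    intro k hk
    rw [Finset.mem_image] at hk
    obtain ⟨w, hw, rfl⟩ := hk
    rw [mem_nb, SimpleGraph.pathGraph_adj] at hw
    simp only [Finset.mem_insert, Finset.mem_singleton]
    omega
  exact (Finset.card_le_card h2).trans Finset.card_le_two

lemma oddFree_path (g m : ℕ) : OddFree g (SimpleGraph.pathGraph (m + 1)) := by
  intro v p _
  rw [SimpleGraph.Coloring.even_length_iff_congr (SimpleGraph.pathGraph.bicoloring (m + 1)) p]

lemma iterate_step (D g m : ℕ) (hDval : D = 28 * 72) (hn : 36 * (D + 1) ^ g ≤ m + 1) (j : ℕ)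
    (hj : j ≤ 13 * (m + 1)) :
    ∃ X : SimpleGraph (Fin (m + 1)), X.Connected ∧ OddFree g X ∧ (∀ v, (nb X v).card ≤ D) ∧
      ∑ v, (nb X v).card ≤ 2 * (m + 1) + 2 * j ∧
      18 ^ j * (largeIndep X).card ≤ 17 ^ j * 2 ^ (m + 1) := by
  induction j with
  | zero =>
    refine ⟨SimpleGraph.pathGraph (m + 1), SimpleGraph.pathGraph_connected m, oddFree_path g m,
      fun v => (nb_path_card m v).trans (by omega), ?_, ?_⟩
    · calc ∑ v, (nb (SimpleGraph.pathGraph (m + 1)) v).card
          ≤ ∑ v : Fin (m + 1), 2 := Finset.sum_le_sum fun v _ => nb_path_card m v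
        _ = 2 * (m + 1) + 2 * 0 := by simp; ring
    · simp only [pow_zero, one_mul]
      refine (Finset.card_le_univ _).trans ?_
      simp
  | succ j ih =>
    obtain ⟨X, h1, h2, h3, h4, h5⟩ := ih (by omega)
    obtain ⟨X', k1, k2, k3, k4, k5⟩ := step D g hDval X h3 h2 h1
      (by rw [Fintype.card_fin]; omega) (by rw [Fintype.card_fin]; exact hn)
    refine ⟨X', k1, k2, k3, by omega, ?_⟩
    calc 18 ^ (j + 1) * (largeIndep X').card = 18 ^ j * (18 * (largeIndep X').card) := by ring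
      _ ≤ 18 ^ j * (17 * (largeIndep X).card) := Nat.mul_le_mul_left _ k5
      _ = 17 * (18 ^ j * (largeIndep X).card) := by ring
      _ ≤ 17 * (17 ^ j * 2 ^ (m + 1)) := Nat.mul_le_mul_left _ h5
      _ = 17 ^ (j + 1) * 2 ^ (m + 1) := by ring

/-- Connected graphs of bounded degree without short odd closed walks, whose independent sets
have size at most a third of the vertices. -/
theorem exists_base (g : ℕ) :
    ∃ (m : ℕ) (X : SimpleGraph (Fin (m + 1))), X.Connected ∧ OddFree g X ∧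
      (∀ v, (nb X v).card ≤ 2016) ∧ ∑ v, (nb X v).card ≤ 28 * (m + 1) ∧
      ∀ S : Finset (Fin (m + 1)), (∀ a ∈ S, ∀ b ∈ S, ¬ X.Adj a b) → 3 * S.card ≤ m + 1 := by
  have hpos : 0 < 36 * (2016 + 1) ^ g := by positivity
  obtain ⟨m, hm⟩ : ∃ m, m + 1 = 36 * (2016 + 1) ^ g := ⟨36 * (2016 + 1) ^ g - 1, by omega⟩
  obtain ⟨X, h1, h2, h3, h4, h5⟩ := iterate_step 2016 g m rfl hm.ge (13 * (m + 1)) le_rfl
  refine ⟨m, X, h1, h2, h3, by omega, ?_⟩
  have hzero : (largeIndep X).card = 0 := by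
    by_contra hne
    have hlt : (17 ^ (13 * (m + 1)) * 2 ^ (m + 1) : ℕ) < 18 ^ (13 * (m + 1)) := by
      rw [pow_mul, pow_mul, ← mul_pow]
      exact Nat.pow_lt_pow_left (by norm_num) (by omega)
    have : 18 ^ (13 * (m + 1)) * 1 ≤ 18 ^ (13 * (m + 1)) * (largeIndep X).card :=
      Nat.mul_le_mul_left _ (Nat.one_le_iff_ne_zero.2 hne)
    omega
  intro S hS
  by_contra hlt
  have hmem : S ∈ largeIndep X := by
    rw [mem_largeIndep]
    refine ⟨?_, hS⟩
    rw [Fintype.card_fin]; omega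
  rw [Finset.card_eq_zero.1 hzero] at hmem
  simp at hmem

end Pool.Agent.Work.MP_891b03_co
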