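import Pool.Agent.Work.MP_891b03_co.Cover
import Pool.Agent.Work.MP_891b03_co.Exist

set_option autoImplicit false
set_option linter.unusedSectionVars false
open Finset

namespace Pool.Agent.Work.MP_891b03_co

section conn

variable {V E : Type} (src tgt : E → V) (Z : SimpleGraph V)
  (hadj : ∀ a b, Z.Adj a b → ∃ e, (a = src e ∧ b = tgt e) ∨ (a = tgt e ∧ b = src e))
  (hinc : ∀ v, ∃ e, v = src e ∨ v = tgt e)

include hadj in
lemma gad_reach_walk {a b : V} (p : Z.Walk a b) :
    (Gad src tgt).Reachable (Sum.inl (a, false)) (Sum.inl (b, false)) := by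
  induction p with
  | nil => exact SimpleGraph.Reachable.refl _
  | cons h p ih =>
    refine SimpleGraph.Reachable.trans ?_ ih
    obtain ⟨e, he⟩ := hadj _ _ h
    have h1 : (Gad src tgt).Adj (Sum.inl (_, false)) (Sum.inr (e, 0)) := he.imp (fun h => h.1) (fun h => h.1)
    refine (SimpleGraph.Adj.reachable h1).trans (SimpleGraph.Adj.reachable (SimpleGraph.Adj.symm ?_))
    exact he.symm.imp (fun h => h.2) (fun h => h.2)

include hadj hinc in
lemma gad_connected (hZ : Z.Connected) : (Gad src tgt).Connected := by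
  obtain ⟨v0⟩ := hZ.nonempty
  have : Nonempty ((V × Bool) ⊕ (E × Fin 6)) := ⟨Sum.inl (v0, false)⟩
  have key : ∀ w, (Gad src tgt).Reachable (Sum.inl (v0, false)) w := by
    have h1 : ∀ v, (Gad src tgt).Reachable (Sum.inl (v0, false)) (Sum.inl (v, false)) := by
      intro v
      obtain ⟨p⟩ := hZ.preconnected v0 v
      exact gad_reach_walk src tgt Z hadj p
    rintro (⟨v, b⟩ | ⟨e, j⟩)
    · obtain ⟨e, he⟩ := hinc v
      refine (h1 v).trans ?_
      have a1 : (Gad src tgt).Adj (Sum.inl (v, false)) (Sum.inr (e, 0)) := he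
      have a2 : (Gad src tgt).Adj (Sum.inr (e, 0)) (Sum.inl (v, b)) := he
      exact a1.reachable.trans a2.reachable
    · refine (h1 (src e)).trans ?_
      have a1 : (Gad src tgt).Adj (Sum.inl (src e, false)) (Sum.inr (e, j)) := Or.inl rfl
      exact a1.reachable
  exact ⟨fun u v => (key u).symm.trans (key v)⟩

end conn

section cover

variable {V : Type} [Fintype V] (X : SimpleGraph V)

/-- bipartite double cover -/
def dbl : SimpleGraph (V × Bool) where
  Adj a b := X.Adj a.1 b.1 ∧ a.2 ≠ b.2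
  symm := ⟨fun _ _ h => ⟨h.1.symm, h.2.symm⟩⟩
  loopless := ⟨fun _ h => h.2 rfl⟩

lemma dbl_reach_walk {u w : V} (p : X.Walk u w) (s : Bool) :
    ∃ t, (dbl X).Reachable (u, s) (w, t) := by
  induction p generalizing s with
  | nil => exact ⟨s, SimpleGraph.Reachable.refl _⟩
  | @cons u v w h p ih =>
    obtain ⟨t, ht⟩ := ih (!s)
    refine ⟨t, SimpleGraph.Reachable.trans (SimpleGraph.Adj.reachable ?_) ht⟩
    exact ⟨h, by cases s <;> simp⟩

lemma dbl_reach_both {u w : V} (p : X.Walk u w) (x0 : V × Bool)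
    (h : ∀ s, (dbl X).Reachable x0 (u, s)) : ∀ s, (dbl X).Reachable x0 (w, s) := by
  induction p with
  | nil => exact h
  | @cons u v w hadj p ih =>
    refine ih fun s => ?_
    refine (h (!s)).trans (SimpleGraph.Adj.reachable ?_)
    exact ⟨hadj, by cases s <;> simp⟩

theorem dbl_connected (hconn : X.Connected)
    (hind : ∀ S : Finset V, (∀ a ∈ S, ∀ b ∈ S, ¬ X.Adj a b) → 3 * S.card ≤ Fintype.card V) :
    (dbl X).Connected := by
  classical
  obtain ⟨v0⟩ := hconn.nonempty
  have : Nonempty (V × Bool) := ⟨(v0, false)⟩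
  set S : Bool → Finset V := fun s =>
    Finset.univ.filter (fun v => (dbl X).Reachable (v0, false) (v, s)) with hS
  have hmem : ∀ v s, v ∈ S s ↔ (dbl X).Reachable (v0, false) (v, s) := by
    intro v s; simp [hS]
  have hcov : Finset.univ ⊆ S false ∪ S true := by
    intro v _
    obtain ⟨p⟩ := hconn.preconnected v0 v
    obtain ⟨t, ht⟩ := dbl_reach_walk X p false
    cases t
    · exact Finset.mem_union_left _ ((hmem _ _).2 ht)
    · exact Finset.mem_union_right _ ((hmem _ _).2 ht)
  have hboth : ∃ v, ∀ s, (dbl X).Reachable (v0, false) (v, s) := by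
    by_contra hcon
    push Not at hcon
    have hindS : ∀ s, ∀ a ∈ S s, ∀ b ∈ S s, ¬ X.Adj a b := by
      intro s a ha b hb hab
      rw [hmem] at ha hb
      obtain ⟨t, ht⟩ := hcon b
      apply ht
      by_cases hts : t = s
      · rw [hts]; exact hb
      · refine ha.trans (SimpleGraph.Adj.reachable ?_)
        exact ⟨hab, fun h => hts h.symm⟩
    have h1 := hind _ (hindS false)
    have h2 := hind _ (hindS true)
    have h3 := (Finset.card_le_card hcov).trans (Finset.card_union_le _ _)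
    rw [Finset.card_univ] at h3
    have h4 : 0 < Fintype.card V := Fintype.card_pos_iff.2 ⟨v0⟩
    omega
  obtain ⟨v, hv⟩ := hboth
  have key : ∀ x, (dbl X).Reachable (v0, false) x := by
    rintro ⟨w, s⟩
    obtain ⟨p⟩ := hconn.preconnected v w
    exact dbl_reach_both X p _ hv s
  exact ⟨fun u v => (key u).symm.trans (key v)⟩

end cover

section count

variable {V E : Type}

/-- the vertices of the cover as a product -/
def cEquiv : ((V × Bool) × Bool) ⊕ ((E × Bool) × Fin 6) ≃ ((V × Bool) ⊕ (E × Fin 6)) × Bool where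
  toFun x := (cproj x, sheet x)
  invFun y := match y with
    | (Sum.inl p, s) => Sum.inl ((p.1, s), p.2)
    | (Sum.inr q, s) => Sum.inr ((q.1, s), q.2)
  left_inv := by rintro (⟨⟨v, s⟩, i⟩ | ⟨⟨e, s⟩, j⟩) <;> rfl
  right_inv := by rintro ⟨⟨v, i⟩ | ⟨e, j⟩, s⟩ <;> rfl

lemma ncard_cover (P : (V × Bool) ⊕ (E × Fin 6) → Prop) :
    {x : ((V × Bool) × Bool) ⊕ ((E × Bool) × Fin 6) | P (cproj x)}.ncard
      = {x | P x}.ncard * 2 := by
  have h1 : (cEquiv (V := V) (E := E)) '' {x | P (cproj x)} = {x | P x} ×ˢ (Set.univ : Set Bool) := by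
    ext ⟨y, s⟩
    simp only [Set.mem_image, Set.mem_ofPred_eq, Set.mem_prod, Set.mem_univ, and_true]
    constructor
    · rintro ⟨x, hx, hxy⟩
      have : cproj x = y := congrArg Prod.fst hxy
      rw [← this]; exact hx
    · intro hy
      refine ⟨cEquiv.symm (y, s), ?_, Equiv.apply_symm_apply _ _⟩
      have : cEquiv (cEquiv.symm (y, s)) = (y, s) := Equiv.apply_symm_apply _ _
      have : cproj (cEquiv.symm (y, s)) = y := congrArg Prod.fst this
      rw [this]; exact hy
  rw [← Set.ncard_image_of_injective _ (cEquiv (V := V) (E := E)).injective, h1, Set.ncard_prod,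
    Set.ncard_univ]
  simp

variable [Fintype V] [Fintype E]

lemma gad_degree (src tgt : E → V) (d : ℕ)
    (hd : ∀ v, {e | v = src e ∨ v = tgt e}.ncard ≤ d) (w : (V × Bool) ⊕ (E × Fin 6)) :
    ((Gad src tgt).neighborSet w).ncard ≤ 6 * d + 4 := by
  rcases w with ⟨v, b⟩ | ⟨e, j⟩
  · have hsub : (Gad src tgt).neighborSet (Sum.inl (v, b)) ⊆
        Sum.inr '' ({e | v = src e ∨ v = tgt e} ×ˢ (Set.univ : Set (Fin 6))) := by
      rintro (l | ⟨e, j⟩) h
      · exact absurd h (by simp [Gad, gadAdj])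
      · exact ⟨(e, j), ⟨h, Set.mem_univ _⟩, rfl⟩
    have h1 := Set.ncard_le_ncard hsub (Set.toFinite _)
    rw [Set.ncard_image_of_injective _ Sum.inr_injective, Set.ncard_prod, Set.ncard_univ] at h1
    have h2 := hd v
    simp at h1
    omega
  · have hsub : (Gad src tgt).neighborSet (Sum.inr (e, j)) ⊆
        Sum.inl '' (({src e, tgt e} : Set V) ×ˢ (Set.univ : Set Bool)) := by
      rintro (⟨v, b⟩ | x) h
      · exact ⟨(v, b), ⟨h, Set.mem_univ _⟩, rfl⟩
      · exact absurd h (by simp [Gad, gadAdj])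
    have h1 := Set.ncard_le_ncard hsub (Set.toFinite _)
    rw [Set.ncard_image_of_injective _ Sum.inl_injective, Set.ncard_prod, Set.ncard_univ] at h1
    have h2 : ({src e, tgt e} : Set V).ncard ≤ 2 :=
      (Set.ncard_insert_le _ _).trans (by simp)
    simp at h1
    omega

lemma cover_inc (src tgt : E → V) (d : ℕ)
    (hd : ∀ v, {e | v = src e ∨ v = tgt e}.ncard ≤ d) (v : V × Bool) :
    {e | v = csrc src e ∨ v = ctgt tgt e}.ncard ≤ d * 2 := by
  have hsub : {e | v = csrc src e ∨ v = ctgt tgt e} ⊆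
      {e | v.1 = src e ∨ v.1 = tgt e} ×ˢ (Set.univ : Set Bool) := by
    rintro ⟨e, s⟩ h
    refine ⟨?_, Set.mem_univ _⟩
    exact h.imp (fun h => congrArg Prod.fst h) (fun h => congrArg Prod.fst h)
  have h1 := Set.ncard_le_ncard hsub (Set.toFinite _)
  rw [Set.ncard_prod, Set.ncard_univ] at h1
  have h2 := Nat.mul_le_mul_right 2 (hd v.1)
  simp at h1
  omega

end count

end Pool.Agent.Work.MP_891b03_co
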