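import Mathlib

set_option autoImplicit false
set_option linter.unusedSectionVars false
open Finset

namespace Pool.Agent.Work.MP_891b03_co

section basics

variable {V : Type} [Fintype V]

open Classical in
/-- neighbours as a finset -/
noncomputable def nb (X : SimpleGraph V) (v : V) : Finset V := Finset.univ.filter (fun w => X.Adj v w)

open Classical in
/-- ball of radius `k` as a finset -/
noncomputable def ballF (X : SimpleGraph V) (k : ℕ) (v : V) : Finset V :=
  Finset.univ.filter (fun w => ∃ p : X.Walk v w, p.length ≤ k)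

lemma mem_nb (X : SimpleGraph V) (v w : V) : w ∈ nb X v ↔ X.Adj v w := by
  unfold nb; simp

lemma mem_ballF (X : SimpleGraph V) (k : ℕ) (v w : V) :
    w ∈ ballF X k v ↔ ∃ p : X.Walk v w, p.length ≤ k := by
  unfold ballF; simp

/-- no short odd closed walk -/
def OddFree (g : ℕ) (X : SimpleGraph V) : Prop :=
  ∀ v (p : X.Walk v v), p.length ≤ g → Even p.length

lemma card_ballF_le (X : SimpleGraph V) (D : ℕ) (hD : ∀ v, (nb X v).card ≤ D) (k : ℕ) :
    ∀ v, (ballF X k v).card ≤ (D + 1) ^ k := by
  classical
  induction k with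
  | zero =>
    intro v
    have : ballF X 0 v ⊆ {v} := by
      intro w hw
      rw [mem_ballF] at hw
      obtain ⟨p, hp⟩ := hw
      have := SimpleGraph.Walk.eq_of_length_eq_zero (by omega : p.length = 0)
      simp [this]
    simpa using Finset.card_le_card this
  | succ k ih =>
    intro v
    have hsub : ballF X (k + 1) v ⊆ (insert v (nb X v)).biUnion (fun z => ballF X k z) := by
      intro w hw
      rw [mem_ballF] at hw
      obtain ⟨p, hp⟩ := hw
      rw [Finset.mem_biUnion]
      cases p with
      | nil => exact ⟨v, Finset.mem_insert_self _ _, (mem_ballF X k v v).2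
          ⟨SimpleGraph.Walk.nil, by simp⟩⟩
      | cons h p =>
        refine ⟨_, Finset.mem_insert_of_mem ((mem_nb X _ _).2 h), (mem_ballF X k _ w).2 ⟨p, ?_⟩⟩
        simp at hp; omega
    calc (ballF X (k + 1) v).card ≤ ((insert v (nb X v)).biUnion (fun z => ballF X k z)).card :=
          Finset.card_le_card hsub
      _ ≤ (insert v (nb X v)).card * (D + 1) ^ k := Finset.card_biUnion_le_card_mul _ _ _
          (fun z _ => ih z)
      _ ≤ (D + 1) * (D + 1) ^ k := Nat.mul_le_mul_right _
          ((Finset.card_insert_le _ _).trans (Nat.succ_le_succ (hD v)))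
      _ = (D + 1) ^ (k + 1) := by ring

/-- adding an edge -/
def addE (X : SimpleGraph V) (x y : V) : SimpleGraph V := X ⊔ SimpleGraph.edge x y

lemma addE_adj (X : SimpleGraph V) {x y : V} (hxy : x ≠ y) (a b : V) :
    (addE X x y).Adj a b ↔ X.Adj a b ∨ (a = x ∧ b = y) ∨ (a = y ∧ b = x) := by
  unfold addE
  rw [SimpleGraph.sup_adj, SimpleGraph.edge_adj]
  constructor
  · rintro (h | ⟨h, _⟩)
    · exact Or.inl h
    · rcases h with ⟨rfl, rfl⟩ | ⟨rfl, rfl⟩
      · right; left; exact ⟨rfl, rfl⟩
      · right; right; exact ⟨rfl, rfl⟩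
  · rintro (h | ⟨rfl, rfl⟩ | ⟨rfl, rfl⟩)
    · exact Or.inl h
    · right; exact ⟨Or.inl ⟨rfl, rfl⟩, hxy⟩
    · right; exact ⟨Or.inr ⟨rfl, rfl⟩, hxy.symm⟩

lemma decomp (g : ℕ) (X : SimpleGraph V) (hX : OddFree g X) {x y : V}
    (hxy : x ≠ y) (hfar : ∀ p : X.Walk x y, ¬ p.length ≤ g) {u w : V} (p : (addE X x y).Walk u w)
    (hp : p.length ≤ g) :
    (∃ q : X.Walk u w, q.length = p.length) ∨
    ∃ c c' : V, (c = x ∨ c = y) ∧ (c' = x ∨ c' = y) ∧ ∃ (q1 : X.Walk u c) (q2 : X.Walk c' w),
      q1.length + q2.length + 1 ≤ p.length ∧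
      ((c = c' → (p.length + q1.length + q2.length) % 2 = 0) ∧
       (c ≠ c' → (p.length + q1.length + q2.length) % 2 = 1)) := by
  have hfar' : ∀ c c' : V, (c = x ∨ c = y) → (c' = x ∨ c' = y) → c ≠ c' →
      ∀ p : X.Walk c c', ¬ p.length ≤ g := by
    intro c c' hc hc' hne q hq
    rcases hc with rfl | rfl <;> rcases hc' with rfl | rfl
    · exact hne rfl
    · exact hfar q hq
    · exact hfar q.reverse (by simpa using hq)
    · exact hne rfl
  induction p with
  | nil => exact Or.inl ⟨SimpleGraph.Walk.nil, rfl⟩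
  | @cons u v w h p ih =>
    simp only [SimpleGraph.Walk.length_cons] at hp ⊢
    have ih := ih (by omega)
    rw [addE_adj X hxy] at h
    rcases h with h | h
    · rcases ih with ⟨q, hq⟩ | ⟨c, c', hc, hc', q1, q2, h1, h2, h3⟩
      · exact Or.inl ⟨SimpleGraph.Walk.cons h q, by simp [hq]⟩
      · refine Or.inr ⟨c, c', hc, hc', SimpleGraph.Walk.cons h q1, q2, ?_, ?_, ?_⟩
        · simp; omega
        · intro hcc; have := h2 hcc; simp; omega
        · intro hcc; have := h3 hcc; simp; omega
    · have hu : u = x ∨ u = y := h.imp (fun h => h.1) (fun h => h.1)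
      have hv : v = x ∨ v = y := h.symm.imp (fun h => h.2) (fun h => h.2)
      have huv : u ≠ v := by
        rcases h with ⟨rfl, rfl⟩ | ⟨rfl, rfl⟩
        · exact hxy
        · exact hxy.symm
      rcases ih with ⟨q, hq⟩ | ⟨c, c', hc, hc', q1, q2, h1, h2, h3⟩
      · refine Or.inr ⟨u, v, hu, hv, SimpleGraph.Walk.nil, q, ?_, ?_, ?_⟩
        · simp; omega
        · intro hcc; exact absurd hcc huv
        · intro _; simp; omega
      · have hcv : v = c := by
          by_contra hne
          exact hfar' v c hv hc hne q1 (by omega)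
        subst hcv
        have heven := hX v q1 (by omega)
        rw [Nat.even_iff] at heven
        refine Or.inr ⟨u, c', hu, hc', SimpleGraph.Walk.nil, q2, ?_, ?_, ?_⟩
        · simp; omega
        · intro hcc
          have : v ≠ c' := fun h => huv (hcc.trans h.symm)
          have := h3 this
          simp; omega
        · intro hcc
          have : v = c' := by
            rcases hc' with hc' | hc'
            · rcases hv with hv | hv
              · exact hv.trans hc'.symm
              · rcases hu with hu | hu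
                · exact absurd (hu.trans hc'.symm) hcc
                · exact absurd (hu.trans hv.symm) huv
            · rcases hv with hv | hv
              · rcases hu with hu | hu
                · exact absurd (hu.trans hv.symm) huv
                · exact absurd (hu.trans hc'.symm) hcc
              · exact hv.trans hc'.symm
          have := h2 this
          simp; omega

lemma oddFree_addE (g : ℕ) (X : SimpleGraph V) (hX : OddFree g X) {x y : V}
    (hxy : x ≠ y) (hfar : ∀ p : X.Walk x y, ¬ p.length ≤ g) : OddFree g (addE X x y) := by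
  have hfar' : ∀ c c' : V, (c = x ∨ c = y) → (c' = x ∨ c' = y) → c ≠ c' →
      ∀ p : X.Walk c c', ¬ p.length ≤ g := by
    intro c c' hc hc' hne q hq
    rcases hc with rfl | rfl <;> rcases hc' with rfl | rfl
    · exact hne rfl
    · exact hfar q hq
    · exact hfar q.reverse (by simpa using hq)
    · exact hne rfl
  intro v p hp
  rcases decomp g X hX hxy hfar p hp with ⟨q, hq⟩ | ⟨c, c', hc, hc', q1, q2, h1, h2, h3⟩
  · rw [← hq]; exact hX v q (by omega)
  · have hcc : c' = c := by
      by_contra hne
      exact hfar' c' c hc' hc hne (q2.append q1) (by simp; omega)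
    subst hcc
    have heven := hX c' (q2.append q1) (by simp; omega)
    rw [Nat.even_iff] at heven ⊢
    have := h2 rfl
    simp at heven
    omega

lemma nb_addE_card (X : SimpleGraph V) {x y : V} (hxy : x ≠ y) (v : V) [DecidableEq V] :
    (nb (addE X x y) v).card ≤ (nb X v).card + ((if v = x then 1 else 0) + (if v = y then 1 else 0)) := by
  have hsub : nb (addE X x y) v ⊆
      nb X v ∪ ((if v = x then {y} else ∅) ∪ (if v = y then {x} else ∅)) := by
    intro w hw
    rw [mem_nb, addE_adj X hxy] at hw
    rcases hw with h | ⟨rfl, rfl⟩ | ⟨rfl, rfl⟩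
    · exact Finset.mem_union_left _ ((mem_nb _ _ _).2 h)
    · apply Finset.mem_union_right; apply Finset.mem_union_left; simp
    · apply Finset.mem_union_right; apply Finset.mem_union_right; simp
  refine (Finset.card_le_card hsub).trans ((Finset.card_union_le _ _).trans ?_)
  refine Nat.add_le_add_left ((Finset.card_union_le _ _).trans ?_) _
  apply Nat.add_le_add
  · split_ifs <;> simp
  · split_ifs <;> simp

open Classical in
/-- large independent sets -/
noncomputable def largeIndep (X : SimpleGraph V) : Finset (Finset V) :=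
  Finset.univ.filter (fun S => Fintype.card V < 3 * S.card ∧ ∀ a ∈ S, ∀ b ∈ S, ¬ X.Adj a b)

lemma mem_largeIndep (X : SimpleGraph V) (S : Finset V) :
    S ∈ largeIndep X ↔ Fintype.card V < 3 * S.card ∧ ∀ a ∈ S, ∀ b ∈ S, ¬ X.Adj a b := by
  unfold largeIndep
  simp

lemma card_le_sum' {ι : Type} [Fintype ι] (f : ι → ℕ) (s : Finset ι) (c : ℕ)
    (hs : ∀ i ∈ s, c ≤ f i) : s.card * c ≤ ∑ i, f i := by
  calc s.card * c = ∑ i ∈ s, c := by simp
    _ ≤ ∑ i ∈ s, f i := Finset.sum_le_sum hs
    _ ≤ ∑ i, f i := Finset.sum_le_sum_of_subset (Finset.subset_univ s)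

lemma step (D g : ℕ) (hDval : D = 28 * 72) (X : SimpleGraph V) (hD : ∀ v, (nb X v).card ≤ D)
    (hodd : OddFree g X)
    (hconn : X.Connected) (hsum : ∑ v, (nb X v).card ≤ 28 * Fintype.card V)
    (hn : 36 * (D + 1) ^ g ≤ Fintype.card V) :
    ∃ X' : SimpleGraph V, X'.Connected ∧ OddFree g X' ∧ (∀ v, (nb X' v).card ≤ D) ∧
      ∑ v, (nb X' v).card ≤ ∑ v, (nb X v).card + 2 ∧
      18 * (largeIndep X').card ≤ 17 * (largeIndep X).card := by
  classical
  by_cases hemp : (largeIndep X).card = 0
  · exact ⟨X, hconn, hodd, hD, by omega, by omega⟩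
  set n := Fintype.card V with hnn
  -- bad pairs
  set Hi : Finset V := Finset.univ.filter (fun v => D ≤ (nb X v).card) with hHi
  have hHi1 : Hi.card * D ≤ ∑ v, (nb X v).card := card_le_sum' _ Hi D (by
    intro i hi; simpa [hHi] using hi)
  have hHi2 : 72 * Hi.card ≤ n := by subst hDval; omega
  set bad : Finset (V × V) := Finset.univ.filter
    (fun p => D ≤ (nb X p.1).card ∨ D ≤ (nb X p.2).card ∨ p.2 ∈ ballF X g p.1) with hbad
  have hbadsub : bad ⊆ (Hi ×ˢ Finset.univ) ∪ ((Finset.univ ×ˢ Hi) ∪
      (Finset.univ : Finset V).biUnion (fun x => (ballF X g x).image (fun y => (x, y)))) := by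
    rintro ⟨x, y⟩ hp
    simp only [hbad, Finset.mem_filter, Finset.mem_univ, true_and] at hp
    rcases hp with h | h | h
    · apply Finset.mem_union_left; simp [hHi, h]
    · apply Finset.mem_union_right; apply Finset.mem_union_left; simp [hHi, h]
    · apply Finset.mem_union_right; apply Finset.mem_union_right
      rw [Finset.mem_biUnion]
      exact ⟨x, Finset.mem_univ _, Finset.mem_image.2 ⟨y, h, rfl⟩⟩
  have hbadcard : bad.card ≤ Hi.card * n + (n * Hi.card + n * (D + 1) ^ g) := by
    refine (Finset.card_le_card hbadsub).trans ((Finset.card_union_le _ _).trans ?_)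
    refine Nat.add_le_add (by rw [Finset.card_product, Finset.card_univ]) ?_
    refine (Finset.card_union_le _ _).trans ?_
    refine Nat.add_le_add (by rw [Finset.card_product, Finset.card_univ]) ?_
    refine (Finset.card_biUnion_le_card_mul _ _ ((D + 1) ^ g) ?_).trans ?_
    · intro x _
      exact Finset.card_image_le.trans (card_ballF_le X D hD g x)
    · rw [Finset.card_univ]
  have hbad18 : 18 * bad.card ≤ n * n := by
    have e1 : n * (72 * Hi.card) ≤ n * n := Nat.mul_le_mul_left _ hHi2
    have e2 : n * (36 * (D + 1) ^ g) ≤ n * n := Nat.mul_le_mul_left _ hn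
    nlinarith
  set good : Finset (V × V) := Finset.univ \ bad with hgood
  have hgoodmem : ∀ p, p ∈ good ↔ p ∉ bad := by intro p; simp [hgood]
  -- counting
  have hcount : ∀ S ∈ largeIndep X,
      n * n ≤ 18 * (good.filter (fun p => p.1 ∈ S ∧ p.2 ∈ S)).card := by
    intro S hS
    unfold largeIndep at hS
    rw [Finset.mem_filter] at hS
    have hS1 := hS.2.1
    have e1 : S ×ˢ S ⊆ good.filter (fun p => p.1 ∈ S ∧ p.2 ∈ S) ∪ bad := by
      intro p hp
      rw [Finset.mem_product] at hp
      by_cases hpb : p ∈ bad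
      · exact Finset.mem_union_right _ hpb
      · apply Finset.mem_union_left
        rw [Finset.mem_filter]
        exact ⟨(hgoodmem p).2 hpb, hp⟩
    have e2 := (Finset.card_le_card e1).trans (Finset.card_union_le _ _)
    rw [Finset.card_product] at e2
    have e3 : n * n ≤ (3 * S.card) * (3 * S.card) := Nat.mul_le_mul hS1.le hS1.le
    nlinarith
  have hdc : ∑ p ∈ good, ((largeIndep X).filter (fun S => p.1 ∈ S ∧ p.2 ∈ S)).card
      = ∑ S ∈ largeIndep X, (good.filter (fun p => p.1 ∈ S ∧ p.2 ∈ S)).card := by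
    simp_rw [Finset.card_filter]
    rw [Finset.sum_comm]
  have hbig : (largeIndep X).card * (n * n)
      ≤ ∑ p ∈ good, 18 * ((largeIndep X).filter (fun S => p.1 ∈ S ∧ p.2 ∈ S)).card := by
    rw [← Finset.mul_sum, hdc, Finset.mul_sum]
    calc (largeIndep X).card * (n * n) = ∑ S ∈ largeIndep X, n * n := by simp
      _ ≤ _ := Finset.sum_le_sum hcount
  have hgoodcard : good.card ≤ n * n := by
    refine (Finset.card_le_univ _).trans ?_
    rw [Fintype.card_prod]
  have hnpos : 0 < n := by
    have : 0 < (D + 1) ^ g := Nat.pos_of_ne_zero (by positivity)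
    omega
  have hne : good.Nonempty := by
    rw [Finset.nonempty_iff_ne_empty]
    intro h0
    rw [h0] at hbig
    simp only [Finset.sum_empty, nonpos_iff_eq_zero, mul_eq_zero] at hbig
    omega
  have hle : ∑ p ∈ good, (largeIndep X).card
      ≤ ∑ p ∈ good, 18 * ((largeIndep X).filter (fun S => p.1 ∈ S ∧ p.2 ∈ S)).card := by
    refine le_trans ?_ hbig
    rw [Finset.sum_const, smul_eq_mul, mul_comm]
    exact Nat.mul_le_mul_left _ hgoodcard
  obtain ⟨⟨x, y⟩, hp, hpl⟩ := Finset.exists_le_of_sum_le hne hle
  rw [hgoodmem] at hp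
  simp only [hbad, Finset.mem_filter, Finset.mem_univ, true_and, not_or, not_le] at hp
  obtain ⟨hdx, hdy, hball⟩ := hp
  have hfar : ∀ p : X.Walk x y, ¬ p.length ≤ g := by
    intro p hp
    exact hball ((mem_ballF X g x y).2 ⟨p, hp⟩)
  have hxy : x ≠ y := by
    rintro rfl
    exact hfar SimpleGraph.Walk.nil (by simp)
  have hdeg := nb_addE_card X hxy
  refine ⟨addE X x y, ?_, oddFree_addE g X hodd hxy hfar, ?_, ?_, ?_⟩
  · exact hconn.mono le_sup_left
  · intro v
    refine (hdeg v).trans ?_
    by_cases h1 : v = x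
    · subst h1
      rw [if_pos rfl, if_neg hxy]; omega
    · rw [if_neg h1]
      by_cases h2 : v = y
      · subst h2
        rw [if_pos rfl]; omega
      · rw [if_neg h2]
        have := hD v
        omega
  · calc ∑ v, (nb (addE X x y) v).card
        ≤ ∑ v, ((nb X v).card + ((if v = x then 1 else 0) + (if v = y then 1 else 0))) :=
          Finset.sum_le_sum fun v _ => hdeg v
      _ = ∑ v, (nb X v).card + 2 := by
          rw [Finset.sum_add_distrib, Finset.sum_add_distrib]
          simp
  · have hsub : largeIndep (addE X x y) ⊆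
        largeIndep X \ (largeIndep X).filter (fun S => x ∈ S ∧ y ∈ S) := by
      intro S hS
      unfold largeIndep at hS
      rw [Finset.mem_filter] at hS
      obtain ⟨_, hS1, hS2⟩ := hS
      have hSX : S ∈ largeIndep X := by
        unfold largeIndep
        rw [Finset.mem_filter]
        refine ⟨Finset.mem_univ _, hS1, fun a ha b hb hab => hS2 a ha b hb ?_⟩
        rw [addE_adj X hxy]; exact Or.inl hab
      rw [Finset.mem_sdiff, Finset.mem_filter]
      refine ⟨hSX, fun h => hS2 x h.2.1 y h.2.2 ?_⟩
      rw [addE_adj X hxy]; exact Or.inr (Or.inl ⟨rfl, rfl⟩)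
    have h1 := Finset.card_le_card hsub
    rw [Finset.card_sdiff_of_subset (Finset.filter_subset _ _)] at h1
    have h2 : ((largeIndep X).filter (fun S => x ∈ S ∧ y ∈ S)).card ≤ (largeIndep X).card :=
      Finset.card_le_card (Finset.filter_subset _ _)
    simp only at hpl
    omega

end basics

end Pool.Agent.Work.MP_891b03_co
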