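import Mathlib

set_option autoImplicit false
set_option linter.unusedSectionVars false
open Finset

namespace Pool.Agent.Work.MP_891b03_co

/-- The ball of radius `r` around `v` in `G` is isomorphic to the rooted graph `(F, o)`. -/
def BallIso {W : Type} (G : SimpleGraph W) (r : ℕ) (v : W) {k : ℕ} (F : SimpleGraph (Fin k))
    (o : Fin k) : Prop :=
  ∃ e : {w : W // G.dist v w ≤ r} ≃ Fin k,
    (∀ a : {w : W // G.dist v w ≤ r}, (a.1 = v ↔ e a = o)) ∧
    (∀ a b : {w : W // G.dist v w ≤ r}, (G.Adj a.1 b.1 ↔ F.Adj (e a) (e b)))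

/-- Two rooted balls are isomorphic. -/
def BallEquiv {W W' : Type} (G : SimpleGraph W) (G' : SimpleGraph W') (r : ℕ) (x : W) (x' : W') :
    Prop :=
  ∃ f : {w : W // G.dist x w ≤ r} ≃ {w : W' // G'.dist x' w ≤ r},
    (∀ a, (a.1 = x ↔ (f a).1 = x')) ∧ ∀ a b, (G.Adj a.1 b.1 ↔ G'.Adj (f a).1 (f b).1)

lemma BallEquiv.iso_iff {W W' : Type} {G : SimpleGraph W} {G' : SimpleGraph W'} {r : ℕ} {x : W}
    {x' : W'} (h : BallEquiv G G' r x x') {k : ℕ} (F : SimpleGraph (Fin k)) (o : Fin k) :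
    BallIso G r x F o ↔ BallIso G' r x' F o := by
  obtain ⟨f, h1, h2⟩ := h
  constructor
  · rintro ⟨e, e1, e2⟩
    refine ⟨f.symm.trans e, fun a => ?_, fun a b => ?_⟩
    · have := h1 (f.symm a)
      rw [Equiv.apply_symm_apply] at this
      rw [← this, e1]; rfl
    · have := h2 (f.symm a) (f.symm b)
      rw [Equiv.apply_symm_apply, Equiv.apply_symm_apply] at this
      rw [← this, e2]; rfl
  · rintro ⟨e, e1, e2⟩
    refine ⟨f.trans e, fun a => ?_, fun a b => ?_⟩
    · rw [h1, e1]; rfl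
    · rw [h2, e2]; rfl

section
variable {W W' : Type} (G : SimpleGraph W) (G' : SimpleGraph W') (hG : G.Connected)
  (hG' : G'.Connected) (r : ℕ) (x : W) (x' : W') (σ : W → W') (s1 : σ x = x')
  (s4 : ∀ a b, G.dist x a ≤ r → G.dist x b ≤ r → (G.Adj a b ↔ G'.Adj (σ a) (σ b)))
  (s3 : ∀ a, G.dist x a < r → ∀ b', G'.Adj (σ a) b' → ∃ b, G.Adj a b ∧ σ b = b')

lemma dist_le_succ_of_adj {W : Type} {G : SimpleGraph W} (hG : G.Connected) {x a b : W} {k : ℕ}
    (h : G.dist x a ≤ k) (hab : G.Adj a b) : G.dist x b ≤ k + 1 := by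
  have h1 := hG.dist_triangle (u := x) (v := a) (w := b)
  have h2 : G.dist a b = 1 := SimpleGraph.dist_eq_one_iff_adj.2 hab
  omega

lemma exists_pred {W : Type} {G : SimpleGraph W} (hG : G.Connected) {x a : W} {k : ℕ}
    (h : G.dist x a ≤ k + 1) : a = x ∨ ∃ b, G.Adj b a ∧ G.dist x b ≤ k := by
  obtain ⟨p, hp⟩ := hG.exists_walk_length_eq_dist a x
  rw [SimpleGraph.dist_comm] at hp
  cases p with
  | nil => exact Or.inl rfl
  | cons h' q =>
    right
    refine ⟨_, h'.symm, ?_⟩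
    rw [SimpleGraph.dist_comm]
    refine (SimpleGraph.dist_le q).trans ?_
    simp at hp; omega

include hG hG' s1 s4 in
lemma image_dist_le : ∀ k ≤ r, ∀ a, G.dist x a ≤ k → G'.dist x' (σ a) ≤ k := by
  intro k
  induction k with
  | zero =>
    intro _ a ha
    have : x = a := (hG.dist_eq_zero_iff).1 (by omega)
    subst this
    rw [s1]; simp
  | succ k ih =>
    intro hk a ha
    rcases exists_pred hG ha with rfl | ⟨b, hb, hb2⟩
    · rw [s1]; simp
    · have h1 := ih (by omega) b hb2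
      exact dist_le_succ_of_adj hG' h1 ((s4 b a (by omega) (by omega)).1 hb)

include hG hG' s1 s3 in
lemma lift_dist_le : ∀ k ≤ r, ∀ w', G'.dist x' w' ≤ k → ∃ w, G.dist x w ≤ k ∧ σ w = w' := by
  intro k
  induction k with
  | zero =>
    intro _ a ha
    have : x' = a := (hG'.dist_eq_zero_iff).1 (by omega)
    subst this
    exact ⟨x, by simp, s1⟩
  | succ k ih =>
    intro hk a ha
    rcases exists_pred hG' ha with rfl | ⟨b, hb, hb2⟩
    · exact ⟨x, by simp, s1⟩
    · obtain ⟨w, hw, rfl⟩ := ih (by omega) b hb2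
      obtain ⟨c, hc1, hc2⟩ := s3 w (by omega) a hb
      exact ⟨c, dist_le_succ_of_adj hG hw hc1, hc2⟩

include hG hG' s1 s3 s4 in
theorem ballEquiv_of_section (s2 : Function.Injective σ) : BallEquiv G G' r x x' := by
  let f : {w : W // G.dist x w ≤ r} → {w : W' // G'.dist x' w ≤ r} :=
    fun a => ⟨σ a.1, image_dist_le G G' hG hG' r x x' σ s1 s4 r le_rfl a.1 a.2⟩
  have hf : Function.Bijective f := by
    constructor
    · intro a b hab
      apply Subtype.ext
      apply s2
      exact congrArg Subtype.val hab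
    · rintro ⟨w', hw'⟩
      obtain ⟨w, hw, rfl⟩ := lift_dist_le G G' hG hG' r x x' σ s1 s3 r le_rfl w' hw'
      exact ⟨⟨w, hw⟩, rfl⟩
  refine ⟨Equiv.ofBijective f hf, fun a => ?_, fun a b => ?_⟩
  · constructor
    · intro h
      change σ a.1 = x'
      rw [h, s1]
    · intro h
      change σ a.1 = x' at h
      exact s2 (h.trans s1.symm)
  · exact s4 a.1 b.1 a.2 b.2

end

/-- isomorphisms preserve balls -/
lemma ballEquiv_of_iso {W W' : Type} {G : SimpleGraph W} {G' : SimpleGraph W'} (φ : G ≃g G')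
    (hG : G.Connected) (hG' : G'.Connected) (r : ℕ) (x : W) : BallEquiv G G' r x (φ x) := by
  refine ballEquiv_of_section G G' hG hG' r x (φ x) φ rfl ?_ ?_ φ.injective
  · intro a b _ _
    exact (φ.map_adj_iff).symm
  · intro a _ b' hb'
    refine ⟨φ.symm b', ?_, by simp⟩
    rw [← φ.map_adj_iff]; simpa using hb'

end Pool.Agent.Work.MP_891b03_co
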