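import Pool.Agent.Work.MP_891b03_co.Upper
import Pool.Agent.Work.MP_891b03_co.Greedy
import Pool.Agent.Work.MP_891b03_co.LocalIso

set_option autoImplicit false
set_option linter.unusedSectionVars false
open Finset

namespace Pool.Agent.Work.MP_891b03_co

section

variable {V E : Type} [Fintype V]

/-- sources in the double cover -/
def csrc (src : E → V) : E × Bool → V × Bool := fun e => (src e.1, e.2)
/-- targets in the double cover -/
def ctgt (tgt : E → V) : E × Bool → V × Bool := fun e => (tgt e.1, !e.2)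

variable (src tgt : E → V) (X : SimpleGraph V) (hX : ∀ e, X.Adj (src e) (tgt e))

/-- projection of the gadget graph to the base -/
def bproj (src : E → V) : (V × Bool) ⊕ (E × Fin 6) → V
  | Sum.inl p => p.1
  | Sum.inr q => src q.1

include hX in
lemma bproj_adj (a b : (V × Bool) ⊕ (E × Fin 6)) (h : (Gad src tgt).Adj a b) :
    X.dist (bproj src a) (bproj src b) ≤ 1 := by
  rcases a with l | x <;> rcases b with l' | y
  · exact absurd h (by simp [Gad, gadAdj])
  · have h : l.1 = src y.1 ∨ l.1 = tgt y.1 := h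
    rcases h with h | h
    · simp [bproj, h]
    · simp only [bproj, h]
      exact (SimpleGraph.dist_eq_one_iff_adj.2 (hX y.1).symm).le
  · have h : l'.1 = src x.1 ∨ l'.1 = tgt x.1 := h
    rcases h with h | h
    · simp [bproj, h]
    · simp only [bproj, h]
      exact (SimpleGraph.dist_eq_one_iff_adj.2 (hX x.1)).le
  · exact absurd h (by simp [Gad, gadAdj])

include hX in
lemma bproj_dist (hconn : X.Connected) (hG : (Gad src tgt).Connected)
    (a b : (V × Bool) ⊕ (E × Fin 6)) :
    X.dist (bproj src a) (bproj src b) ≤ (Gad src tgt).dist a b := by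
  obtain ⟨p, hp⟩ := hG.exists_walk_length_eq_dist a b
  rw [← hp]
  clear hp
  induction p with
  | nil => simp
  | @cons u v w h p ih =>
    have h1 := bproj_adj src tgt X hX u v h
    have h2 := hconn.dist_triangle (u := bproj src u) (v := bproj src v) (w := bproj src w)
    simp only [SimpleGraph.Walk.length_cons]
    omega

/-- the gauge function -/
noncomputable def gauge (v0 : V) (s0 : Bool) (v : V) : Bool := xor s0 (decide (X.dist v0 v % 2 = 1))

include hX in
lemma gauge_proper (hconn : X.Connected) (r : ℕ) (hodd : OddFree (2 * r + 2) X) (v0 : V)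
    (s0 : Bool) (e : E) (he : X.dist v0 (src e) ≤ r) :
    gauge X v0 s0 (tgt e) = !gauge X v0 s0 (src e) := by
  obtain ⟨p, hp⟩ := hconn.exists_walk_length_eq_dist v0 (src e)
  obtain ⟨q, hq⟩ := hconn.exists_walk_length_eq_dist v0 (tgt e)
  have h1 := hconn.dist_triangle (u := v0) (v := src e) (w := tgt e)
  have h2 : X.dist (src e) (tgt e) = 1 := SimpleGraph.dist_eq_one_iff_adj.2 (hX e)
  have h3 := hodd v0 (p.append (SimpleGraph.Walk.cons (hX e) q.reverse)) (by simp; omega)
  rw [Nat.even_iff] at h3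
  simp only [SimpleGraph.Walk.length_append, SimpleGraph.Walk.length_cons,
    SimpleGraph.Walk.length_reverse, hp, hq] at h3
  unfold gauge
  by_cases h4 : X.dist v0 (src e) % 2 = 1
  · have h5 : ¬ X.dist v0 (tgt e) % 2 = 1 := by omega
    simp [h4, h5]
  · have h5 : X.dist v0 (tgt e) % 2 = 1 := by omega
    simp [h4, h5]

/-- section of the covering map defined by a gauge -/
def sec (src : E → V) (γ : V → Bool) :
    (V × Bool) ⊕ (E × Fin 6) → ((V × Bool) × Bool) ⊕ ((E × Bool) × Fin 6)
  | Sum.inl p => Sum.inl ((p.1, γ p.1), p.2)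
  | Sum.inr q => Sum.inr ((q.1, γ (src q.1)), q.2)

lemma sec_injective (γ : V → Bool) : Function.Injective (sec src γ) := by
  rintro (⟨v, b⟩ | ⟨e, j⟩) (⟨v', b'⟩ | ⟨e', j'⟩) h
  · simp only [sec, Sum.inl.injEq, Prod.mk.injEq] at h
    rw [h.1.1, h.2]
  · simp [sec] at h
  · simp [sec] at h
  · simp only [sec, Sum.inr.injEq, Prod.mk.injEq] at h
    rw [h.1.1, h.2]

/-- the covering projection -/
def cproj : ((V × Bool) × Bool) ⊕ ((E × Bool) × Fin 6) → (V × Bool) ⊕ (E × Fin 6)
  | Sum.inl p => Sum.inl (p.1.1, p.2)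
  | Sum.inr q => Sum.inr (q.1.1, q.2)

/-- the sheet of a vertex of the cover -/
def sheet : ((V × Bool) × Bool) ⊕ ((E × Bool) × Fin 6) → Bool
  | Sum.inl p => p.1.2
  | Sum.inr q => q.1.2

include hX in
theorem cover_ball (hconn : X.Connected) (hG : (Gad src tgt).Connected)
    (hG' : (Gad (csrc src) (ctgt tgt)).Connected) (r : ℕ) (hodd : OddFree (2 * r + 2) X)
    (x' : ((V × Bool) × Bool) ⊕ ((E × Bool) × Fin 6)) :
    BallEquiv (Gad src tgt) (Gad (csrc src) (ctgt tgt)) r (cproj x') x' := by
  set v0 : V := bproj src (cproj x') with hv0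
  set γ : V → Bool := gauge X v0 (sheet x') with hγ
  have hprop : ∀ e j, (Gad src tgt).dist (cproj x') (Sum.inr (e, j)) ≤ r →
      γ (tgt e) = !γ (src e) := by
    intro e j h
    refine gauge_proper src tgt X hX hconn r hodd v0 _ e ?_
    exact (bproj_dist src tgt X hX hconn hG (cproj x') (Sum.inr (e, j))).trans h
  refine ballEquiv_of_section _ _ hG hG' r (cproj x') x' (sec src γ) ?_ ?_ ?_
    (sec_injective src γ)
  · have h0 : γ v0 = sheet x' := by
      simp [hγ, gauge]
    rcases x' with ⟨⟨v, s⟩, i⟩ | ⟨⟨e, s⟩, j⟩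
    · simp only [hv0, cproj, bproj, sheet] at h0 ⊢
      simp only [sec, h0]
    · simp only [hv0, cproj, bproj, sheet] at h0 ⊢
      simp only [sec, h0]
  · rintro (⟨v, b⟩ | ⟨e, j⟩) (⟨v', b'⟩ | ⟨e', j'⟩) ha hb
    · simp [Gad, gadAdj, sec]
    · have hp := hprop e' j' hb
      simp only [Gad, gadAdj, sec, csrc, ctgt, Prod.mk.injEq]
      constructor
      · rintro (rfl | rfl)
        · left; exact ⟨rfl, rfl⟩
        · right; exact ⟨rfl, hp⟩
      · rintro (⟨rfl, _⟩ | ⟨rfl, _⟩)
        · left; rfl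
        · right; rfl
    · have hp := hprop e j ha
      simp only [Gad, gadAdj, sec, csrc, ctgt, Prod.mk.injEq]
      constructor
      · rintro (rfl | rfl)
        · left; exact ⟨rfl, rfl⟩
        · right; exact ⟨rfl, hp⟩
      · rintro (⟨rfl, _⟩ | ⟨rfl, _⟩)
        · left; rfl
        · right; rfl
    · simp [Gad, gadAdj, sec]
  · rintro (⟨v, b⟩ | ⟨e, j⟩) ha (⟨⟨v', s⟩, b'⟩ | ⟨⟨e', s⟩, j'⟩) hb
    · simp [Gad, gadAdj, sec] at hb
    · simp only [Gad, gadAdj, sec, csrc, ctgt, Prod.mk.injEq] at hb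
      have hadj : (Gad src tgt).Adj (Sum.inl (v, b)) (Sum.inr (e', j')) := by
        change v = src e' ∨ v = tgt e'
        exact hb.imp (fun h => h.1) (fun h => h.1)
      have hp := hprop e' j' (dist_le_succ_of_adj hG le_rfl hadj |>.trans ha)
      refine ⟨Sum.inr (e', j'), hadj, ?_⟩
      simp only [sec]
      rcases hb with ⟨h1, h2⟩ | ⟨h1, h2⟩
      · subst h1; rw [h2]
      · subst h1
        rw [hp] at h2
        have : γ (src e') = s := by
          cases h3 : γ (src e') <;> cases s <;> simp_all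
        rw [this]
    · simp only [Gad, gadAdj, sec, csrc, ctgt, Prod.mk.injEq] at hb
      have hp := hprop e j ha.le
      refine ⟨Sum.inl (v', b'), ?_, ?_⟩
      · change v' = src e ∨ v' = tgt e
        exact hb.imp (fun h => h.1) (fun h => h.1)
      · simp only [sec]
        rcases hb with ⟨h1, h2⟩ | ⟨h1, h2⟩
        · subst h1; rw [h2]
        · subst h1; rw [h2, hp]
    · simp [Gad, gadAdj, sec] at hb

end

end Pool.Agent.Work.MP_891b03_co
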