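import Pool.Agent.Work.MP_891b03_co.Family

set_option autoImplicit false
set_option linter.unusedSectionVars false
open Finset

namespace Pool.Agent.Work.MP_891b03_co

/-- `exists_base` with the number of vertices. -/
theorem exists_base2 (g : ℕ) :
    ∃ (m : ℕ) (X : SimpleGraph (Fin (m + 1))), g ≤ m ∧ X.Connected ∧ OddFree g X ∧
      (∀ v, (nb X v).card ≤ 2016) ∧ ∑ v, (nb X v).card ≤ 28 * (m + 1) ∧
      ∀ S : Finset (Fin (m + 1)), (∀ a ∈ S, ∀ b ∈ S, ¬ X.Adj a b) → 3 * S.card ≤ m + 1 := by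
  have hpos : 0 < 36 * (2016 + 1) ^ g := by positivity
  obtain ⟨m, hm⟩ : ∃ m, m + 1 = 36 * (2016 + 1) ^ g := ⟨36 * (2016 + 1) ^ g - 1, by omega⟩
  obtain ⟨X, h1, h2, h3, h4, h5⟩ := iterate_step 2016 g m rfl hm.ge (13 * (m + 1)) le_rfl
  have hgm : g ≤ m := by
    have h2g : g < (2016 + 1) ^ g := Nat.lt_pow_self (by norm_num)
    omega
  refine ⟨m, X, hgm, h1, h2, h3, by omega, ?_⟩
  have hzero : (largeIndep X).card = 0 := by
    by_contra hne
    have hlt : (17 ^ (13 * (m + 1)) * 2 ^ (m + 1) : ℕ) < 18 ^ (13 * (m + 1)) := by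
      rw [pow_mul, pow_mul, ← mul_pow]
      exact Nat.pow_lt_pow_left (by norm_num) (by omega)
    have : 18 ^ (13 * (m + 1)) * 1 ≤ 18 ^ (13 * (m + 1)) * (largeIndep X).card :=
      Nat.mul_le_mul_left _ (Nat.one_le_iff_ne_zero.2 hne)
    omega
  intro S hS
  by_contra hlt
  have hmem : S ∈ largeIndep X := by
    rw [mem_largeIndep]
    refine ⟨?_, hS⟩
    rw [Fintype.card_fin]; omega
  rw [Finset.card_eq_zero.1 hzero] at hmem
  simp at hmem

/-- `exists_pair` with the number of vertices. -/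
theorem exists_pair2 (r : ℕ) :
    ∃ A B : Σ N : ℕ, SimpleGraph (Fin N), r ≤ A.1 ∧ r ≤ B.1 ∧
      A.2.Connected ∧ B.2.Connected ∧
      (∀ v, (A.2.neighborSet v).ncard ≤ DD) ∧ (∀ v, (B.2.neighborSet v).ncard ≤ DD) ∧
      (∀ r' ≤ r, ∀ k F o, statS A r' k F o = statS B r' k F o) ∧
      costS B + 1 / 1020 ≤ costS A := by
  classical
  obtain ⟨m, X, hgm, hconn, hodd, hdeg, hsum, hind⟩ := exists_base2 (2 * r + 4)
  have hsingle : 3 ≤ m + 1 := by
    have := hind {0} (by
      intro a ha b hb
      rw [Finset.mem_singleton] at ha hb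
      subst ha; subst hb
      exact X.irrefl)
    simpa using this
  have hinc : ∀ v : Fin (m + 1), ∃ e : EX X, v = sX X e ∨ v = tX X e := by
    intro v
    have : Nontrivial (Fin (m + 1)) := Fin.nontrivial_iff_two_le.2 (by omega)
    obtain ⟨w, hw⟩ := exists_ne v
    obtain ⟨p⟩ := hconn.preconnected v w
    cases p with
    | nil => exact absurd rfl hw
    | cons h q =>
      obtain ⟨e, he⟩ := adj_edge X _ _ h
      exact ⟨e, he.imp (fun h => h.1) (fun h => h.1)⟩
  have hincc : ∀ v : Fin (m + 1) × Bool, ∃ e : EX X × Bool, v = csrc (sX X) e ∨ v = ctgt (tX X) e := by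
    rintro ⟨v, s⟩
    obtain ⟨e, he | he⟩ := hinc v
    · exact ⟨(e, s), Or.inl (by simp [csrc, he])⟩
    · exact ⟨(e, !s), Or.inr (by simp [ctgt, he])⟩
  have hnec : ∀ e : EX X × Bool, csrc (sX X) e ≠ ctgt (tX X) e := by
    rintro ⟨e, s⟩ h
    have := congrArg Prod.snd h
    simp [csrc, ctgt] at this
  set GA := Gad (sX X) (tX X) with hGA
  set GB := Gad (csrc (sX X)) (ctgt (tX X)) with hGB
  have hA : GA.Connected := gad_connected (sX X) (tX X) X (adj_edge X) hinc hconn
  have hB : GB.Connected := by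
    refine gad_connected (csrc (sX X)) (ctgt (tX X)) (dbl X) ?_ hincc
      (dbl_connected X hconn (by simpa using hind))
    rintro ⟨u, s⟩ ⟨w, t⟩ ⟨h1, h2⟩
    obtain ⟨e, ⟨he1, he2⟩ | ⟨he1, he2⟩⟩ := adj_edge X _ _ h1
    · refine ⟨(e, s), Or.inl ⟨?_, ?_⟩⟩
      · simp only at he1; simp [csrc, he1]
      · simp only at he2 h2
        simp only [ctgt, Prod.mk.injEq]
        exact ⟨he2, by cases s <;> cases t <;> simp_all⟩
    · refine ⟨(e, t), Or.inr ⟨?_, ?_⟩⟩
      · simp only at he1 h2
        simp only [ctgt, Prod.mk.injEq]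
        exact ⟨he1, by cases s <;> cases t <;> simp_all⟩
      · simp only at he2; simp [csrc, he2]
  have hincard : ∀ v : Fin (m + 1), {e : EX X | v = sX X e ∨ v = tX X e}.ncard ≤ 2016 := fun v =>
    (inc_card X v).trans (hdeg v)
  have hEcard : Fintype.card (EX X) ≤ 28 * (m + 1) := (card_EX_le X).trans hsum
  refine ⟨toFin GA, toFin GB, ?_, ?_, toFin_connected GA hA, toFin_connected GB hB, ?_, ?_, ?_, ?_⟩
  · simp only [toFin, Fintype.card_sum, Fintype.card_prod, Fintype.card_bool, Fintype.card_fin]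
    omega
  · simp only [toFin, Fintype.card_sum, Fintype.card_prod, Fintype.card_bool, Fintype.card_fin]
    omega
  · intro v
    rw [toFin_degree]
    refine (gad_degree (sX X) (tX X) 2016 hincard _).trans ?_
    unfold DD; omega
  · intro v
    rw [toFin_degree]
    exact gad_degree _ _ (2016 * 2) (cover_inc (sX X) (tX X) 2016 hincard) _
  · intro r' hr' k F o
    rw [toFin_stat GA hA, toFin_stat GB hB]
    have hodd' : OddFree (2 * r' + 2) X := fun v p hp => hodd v p (by omega)
    have h1 : {x | BallIso GB r' x F o}.ncard = {x | BallIso GA r' x F o}.ncard * 2 := by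
      rw [← ncard_cover (fun x => BallIso GA r' x F o)]
      congr 1
      ext x
      exact ((cover_ball (sX X) (tX X) X (hXadj X) hconn hA hB r' hodd' x).iso_iff F o).symm
    rw [h1]
    have h2 : Fintype.card (((Fin (m + 1) × Bool) × Bool) ⊕ ((EX X × Bool) × Fin 6))
        = Fintype.card ((Fin (m + 1) × Bool) ⊕ (EX X × Fin 6)) * 2 := by
      simp only [Fintype.card_sum, Fintype.card_prod, Fintype.card_bool]
      ring
    rw [h2]
    push_cast
    rw [mul_div_mul_right _ _ (by norm_num : (2 : ℝ) ≠ 0)]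
  · -- costs
    set M : ℕ := Fintype.card (EX X) with hM
    have hcardA : Fintype.card ((Fin (m + 1) × Bool) ⊕ (EX X × Fin 6)) = 2 * (m + 1) + 6 * M := by
      simp only [Fintype.card_sum, Fintype.card_prod, Fintype.card_bool, Fintype.card_fin]
      ring
    have hcardB : Fintype.card (((Fin (m + 1) × Bool) × Bool) ⊕ ((EX X × Bool) × Fin 6))
        = 2 * (2 * (m + 1) + 6 * M) := by
      simp only [Fintype.card_sum, Fintype.card_prod, Fintype.card_bool, Fintype.card_fin]
      ring
    have hlow := cost_lower GA hA (8 * (M : ℝ) + 2 / 3 * ((m : ℝ) + 1)) (by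
      intro H h1 h2
      obtain ⟨C, hC1, hC2⟩ := gad_lower (sX X) (tX X) H h1 (hXne X) (hXsimple X)
        (fun z e _ _ a b => hXtri X _ (by omega) hodd z e a b) h2
      have hS := hind (Finset.univ \ C) (by
        intro a ha b hb hab
        simp only [Finset.mem_sdiff, Finset.mem_univ, true_and] at ha hb
        obtain ⟨e, ⟨rfl, rfl⟩ | ⟨rfl, rfl⟩⟩ := adj_edge X _ _ hab
        · rcases hC1 e with h | h
          · exact ha h
          · exact hb h
        · rcases hC1 e with h | h
          · exact hb h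
          · exact ha h)
      rw [Finset.card_sdiff_of_subset (Finset.subset_univ _), Finset.card_univ,
        Fintype.card_fin] at hS
      have hC3 : C.card ≤ m + 1 := by
        have := Finset.card_le_univ C
        rwa [Fintype.card_fin] at this
      have h5 : 2 * (m + 1) ≤ 3 * C.card := by omega
      have h6 : ((8 * M + C.card : ℕ) : ℝ) ≤ (H.edgeSet.ncard : ℝ) := by exact_mod_cast hC2
      have h7 : ((2 * (m + 1) : ℕ) : ℝ) ≤ ((3 * C.card : ℕ) : ℝ) := by exact_mod_cast h5
      push_cast at h6 h7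
      linarith)
    have hup := cost_upper GB hB (8 * (2 * M) + (m + 1)) (by
      set C : Finset (Fin (m + 1) × Bool) := Finset.univ.filter (fun v => v.2 = false) with hC
      have hcov : ∀ e : EX X × Bool, csrc (sX X) e ∈ C ∨ ctgt (tX X) e ∈ C := by
        rintro ⟨e, s⟩
        cases s
        · left; simp [hC, csrc]
        · right; simp [hC, ctgt]
      have hCcard : C.card = m + 1 := by
        have : C = (Finset.univ : Finset (Fin (m + 1))) ×ˢ ({false} : Finset Bool) := by
          ext ⟨v, s⟩; simp [hC]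
        rw [this, Finset.card_product]
        simp
      refine ⟨econ (csrc (sX X)) (ctgt (tX X)) C,
        econ_near _ _ C hnec hcov, gad_near _ _ C hincc, ?_⟩
      have := econ_card (csrc (sX X)) (ctgt (tX X)) C
      rw [hCcard, Fintype.card_prod, Fintype.card_bool] at this
      omega)
    rw [hcardA] at hlow
    rw [hcardB] at hup
    refine le_trans ?_ hlow
    have hMr : (M : ℝ) ≤ 28 * ((m : ℝ) + 1) := by exact_mod_cast hEcard
    have hM0 : (0 : ℝ) ≤ M := Nat.cast_nonneg _
    have hm0 : (0 : ℝ) ≤ m := Nat.cast_nonneg _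
    push_cast at hup ⊢
    have hpos : (0 : ℝ) < 2 * ((m : ℝ) + 1) + 6 * M := by positivity
    have hup' : costS (toFin GB) ≤ (8 * (M : ℝ) + 1 / 2 * ((m : ℝ) + 1)) / (2 * ((m : ℝ) + 1) + 6 * M) := by
      refine hup.trans (le_of_eq ?_)
      rw [div_eq_div_iff (by positivity) (by positivity)]
      ring
    have hgap : (8 * (M : ℝ) + 1 / 2 * ((m : ℝ) + 1)) / (2 * ((m : ℝ) + 1) + 6 * M) + 1 / 1020
        ≤ (8 * (M : ℝ) + 2 / 3 * ((m : ℝ) + 1)) / (2 * ((m : ℝ) + 1) + 6 * M) := by
      rw [div_add_div _ _ hpos.ne' (by norm_num), div_le_div_iff₀ (by positivity) hpos]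
      nlinarith
    linarith

end Pool.Agent.Work.MP_891b03_co
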