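import Mathlib

set_option autoImplicit false
set_option linter.unusedSectionVars false
open Finset

namespace Pool.Agent.Work.MP_891b03_co

/-- Adjacency of the gadget graph: light vertices `(v, b)`, heavy vertices `(e, j)`;
heavy `(e, j)` is joined to the four light vertices sitting over the two ends of `e`. -/
def gadAdj {V E : Type} (src tgt : E → V) :
    (V × Bool) ⊕ (E × Fin 6) → (V × Bool) ⊕ (E × Fin 6) → Prop
  | Sum.inl p, Sum.inr q => p.1 = src q.1 ∨ p.1 = tgt q.1
  | Sum.inr q, Sum.inl p => p.1 = src q.1 ∨ p.1 = tgt q.1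
  | Sum.inl _, Sum.inl _ => False
  | Sum.inr _, Sum.inr _ => False

/-- The gadget graph. -/
def Gad {V E : Type} (src tgt : E → V) : SimpleGraph ((V × Bool) ⊕ (E × Fin 6)) where
  Adj := gadAdj src tgt
  symm := by
    constructor
    rintro (a | a) (b | b) h <;> exact h
  loopless := by
    constructor
    rintro (a | a) h <;> simp [gadAdj] at h

section lower

variable {V E : Type} [Fintype V] [Fintype E] [DecidableEq V] [DecidableEq E]
variable (src tgt : E → V)
variable (H : SimpleGraph ((V × Bool) ⊕ (E × Fin 6)))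

open Classical in
/-- indicator of adjacency -/
noncomputable def ind (a b : (V × Bool) ⊕ (E × Fin 6)) : ℕ := if H.Adj a b then 1 else 0

omit [Fintype V] [Fintype E] [DecidableEq V] [DecidableEq E] in
lemma ind_symm (a b : (V × Bool) ⊕ (E × Fin 6)) : ind H a b = ind H b a := by
  unfold ind; rw [H.adj_comm]

omit [Fintype V] [Fintype E] [DecidableEq V] [DecidableEq E] in
lemma ind_of_adj {a b : (V × Bool) ⊕ (E × Fin 6)} (h : H.Adj a b) : ind H a b = 1 := by
  unfold ind; simp [h]

lemma two_mul_ncard :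
    2 * H.edgeSet.ncard = ∑ a, ∑ b, ind H a b := by
  classical
  have h1 := SimpleGraph.sum_degrees_eq_twice_card_edges H
  have h2 : H.edgeSet.ncard = H.edgeFinset.card := by
    rw [Set.ncard_eq_toFinset_card']
    congr 1
  rw [h2, ← h1]
  refine Finset.sum_congr rfl fun a _ => ?_
  rw [← SimpleGraph.card_neighborFinset_eq_degree, Finset.card_eq_sum_ones]
  unfold ind
  rw [Finset.sum_ite]
  simp only [Finset.sum_const_zero, add_zero]
  congr 1
  ext b; simp

/-- heavy vertices with a light neighbour -/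
def HasLight (x : E × Fin 6) : Prop := ∃ l : V × Bool, H.Adj (Sum.inr x) (Sum.inl l)

open Classical in
/-- weights -/
noncomputable def wt (x y : E × Fin 6) : ℕ :=
  if HasLight H x then (if HasLight H y then 1 else 0) else (if HasLight H y then 2 else 1)

omit [Fintype V] [Fintype E] [DecidableEq V] [DecidableEq E] in
lemma wt_add (x y : E × Fin 6) : wt H x y + wt H y x = 2 := by
  unfold wt; split_ifs <;> rfl

omit [Fintype V] [DecidableEq V] [DecidableEq E] in
lemma sum_heavy :
    ∑ x : E × Fin 6, ∑ y : E × Fin 6, ind H (Sum.inr x) (Sum.inr y)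
      = ∑ x : E × Fin 6, ∑ y : E × Fin 6, ind H (Sum.inr x) (Sum.inr y) * wt H x y := by
  have h1 : ∑ x : E × Fin 6, ∑ y : E × Fin 6, ind H (Sum.inr x) (Sum.inr y) * wt H x y
      = ∑ x : E × Fin 6, ∑ y : E × Fin 6, ind H (Sum.inr x) (Sum.inr y) * wt H y x := by
    rw [Finset.sum_comm]
    refine Finset.sum_congr rfl fun x _ => Finset.sum_congr rfl fun y _ => ?_
    rw [ind_symm]
  have h2 : 2 * ∑ x : E × Fin 6, ∑ y : E × Fin 6, ind H (Sum.inr x) (Sum.inr y)
      = ∑ x : E × Fin 6, ∑ y : E × Fin 6, ind H (Sum.inr x) (Sum.inr y) * wt H x y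
        + ∑ x : E × Fin 6, ∑ y : E × Fin 6, ind H (Sum.inr x) (Sum.inr y) * wt H y x := by
    rw [← Finset.sum_add_distrib, Finset.mul_sum]
    refine Finset.sum_congr rfl fun x _ => ?_
    rw [← Finset.sum_add_distrib, Finset.mul_sum]
    refine Finset.sum_congr rfl fun y _ => ?_
    rw [← mul_add, wt_add, mul_comm]
  omega

/-- the value (twice the charge) of a heavy vertex -/
noncomputable def val (x : E × Fin 6) : ℕ :=
  2 * ∑ l : V × Bool, ind H (Sum.inr x) (Sum.inl l)
    + ∑ y : E × Fin 6, ind H (Sum.inr x) (Sum.inr y) * wt H x y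

/-- number of light-light adjacencies between the fibres over `z` and `z'` -/
noncomputable def lsum (z z' : V) : ℕ :=
  ∑ b : Bool, ∑ b' : Bool, ind H (Sum.inl (z, b)) (Sum.inl (z', b'))

lemma total :
    2 * H.edgeSet.ncard = ∑ p : V × V, lsum H p.1 p.2 + ∑ x : E × Fin 6, val H x := by
  rw [two_mul_ncard]
  simp only [Fintype.sum_sum_type, Finset.sum_add_distrib]
  rw [sum_heavy]
  have h3 : ∑ l : V × Bool, ∑ x : E × Fin 6, ind H (Sum.inl l) (Sum.inr x)
      = ∑ x : E × Fin 6, ∑ l : V × Bool, ind H (Sum.inr x) (Sum.inl l) := by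
    rw [Finset.sum_comm]
    refine Finset.sum_congr rfl fun x _ => Finset.sum_congr rfl fun y _ => ?_
    rw [ind_symm]
  have h4 : ∑ l : V × Bool, ∑ l' : V × Bool, ind H (Sum.inl l) (Sum.inl l')
      = ∑ p : V × V, lsum H p.1 p.2 := by
    unfold lsum
    simp only [Fintype.sum_prod_type]
    refine Finset.sum_congr rfl fun z _ => ?_
    rw [Finset.sum_comm]
  rw [h3, h4]
  unfold val
  rw [Finset.sum_add_distrib, ← Finset.mul_sum]
  ring

lemma card_le_sum {ι : Type} [Fintype ι] (f : ι → ℕ) (s : Finset ι) (c : ℕ)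
    (hs : ∀ i ∈ s, c ≤ f i) : s.card * c ≤ ∑ i, f i := by
  calc s.card * c = ∑ i ∈ s, c := by simp
    _ ≤ ∑ i ∈ s, f i := Finset.sum_le_sum hs
    _ ≤ ∑ i, f i := Finset.sum_le_sum_of_subset (Finset.subset_univ s)

variable (h1 : ∀ a b, (Gad src tgt).Adj a b → H.Adj a b ∨ ∃ w, H.Adj a w ∧ H.Adj w b)

include h1 in
omit [DecidableEq V] [DecidableEq E] in
lemma exists_heavy_nbr (x : E × Fin 6) (hT : ¬ HasLight H x) (l : V × Bool)
    (hl : l.1 = src x.1 ∨ l.1 = tgt x.1) :
    ∃ y, H.Adj (Sum.inr x) (Sum.inr y) ∧ H.Adj (Sum.inr y) (Sum.inl l) := by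
  rcases h1 (Sum.inr x) (Sum.inl l) hl with h | ⟨w, hw1, hw2⟩
  · exact absurd ⟨l, h⟩ hT
  · rcases w with w | w
    · exact absurd ⟨w, hw1⟩ hT
    · exact ⟨w, hw1, hw2⟩

include h1 in
lemma two_le_val (x : E × Fin 6) : 2 ≤ val H x := by
  classical
  unfold val
  by_cases hT : HasLight H x
  · obtain ⟨l, hl⟩ := hT
    have := card_le_sum (fun l : V × Bool => ind H (Sum.inr x) (Sum.inl l)) {l} 1
      (by simp [ind_of_adj H hl])
    simp at this
    omega
  · obtain ⟨y, hy1, hy2⟩ := exists_heavy_nbr src tgt H h1 x hT (src x.1, false) (Or.inl rfl)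
    have hy : HasLight H y := ⟨_, hy2⟩
    have := card_le_sum (fun y : E × Fin 6 => ind H (Sum.inr x) (Sum.inr y) * wt H x y) {y} 2
      (by simp [ind_of_adj H hy1, wt, hT, hy])
    simp at this
    omega

include h1 in
lemma hub_of_val_lt (x : E × Fin 6) (hx : val H x < 3) :
    ∃ h, ∀ l : V × Bool, (l.1 = src x.1 ∨ l.1 = tgt x.1) → h ≠ Sum.inl l → H.Adj h (Sum.inl l) := by
  classical
  unfold val at hx
  by_cases hT : HasLight H x
  · obtain ⟨l0, hl0⟩ := id hT
    have hl0' := card_le_sum (fun l : V × Bool => ind H (Sum.inr x) (Sum.inl l)) {l0} 1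
      (by simp [ind_of_adj H hl0])
    have hu : ∀ l, H.Adj (Sum.inr x) (Sum.inl l) → l = l0 := by
      intro l hl
      by_contra hne
      have := card_le_sum (fun l : V × Bool => ind H (Sum.inr x) (Sum.inl l)) {l, l0} 1
        (by
          intro i hi
          simp only [Finset.mem_insert, Finset.mem_singleton] at hi
          rcases hi with rfl | rfl
          · simp [ind_of_adj H hl]
          · simp [ind_of_adj H hl0])
      rw [Finset.card_pair hne] at this
      omega
    have hn : ∀ y, HasLight H y → ¬ H.Adj (Sum.inr x) (Sum.inr y) := by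
      intro y hy hxy
      have := card_le_sum (fun y : E × Fin 6 => ind H (Sum.inr x) (Sum.inr y) * wt H x y) {y} 1
        (by simp [ind_of_adj H hxy, wt, hT, hy])
      simp at this hl0'
      omega
    refine ⟨Sum.inl l0, fun l hl hne => ?_⟩
    rcases h1 (Sum.inr x) (Sum.inl l) hl with h | ⟨w, hw1, hw2⟩
    · exact absurd (by rw [hu l h]) hne
    · rcases w with w | w
      · rw [hu w hw1] at hw2
        exact hw2
      · exact absurd hw1 (hn w ⟨l, hw2⟩)
  · obtain ⟨y, hy1, hy2⟩ := exists_heavy_nbr src tgt H h1 x hT (src x.1, false) (Or.inl rfl)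
    have hy : HasLight H y := ⟨_, hy2⟩
    have hu : ∀ y', H.Adj (Sum.inr x) (Sum.inr y') → HasLight H y' → y' = y := by
      intro y' hy' hT'
      by_contra hne
      have := card_le_sum (fun y : E × Fin 6 => ind H (Sum.inr x) (Sum.inr y) * wt H x y) {y', y} 2
        (by
          intro i hi
          simp only [Finset.mem_insert, Finset.mem_singleton] at hi
          rcases hi with rfl | rfl
          · simp [ind_of_adj H hy', wt, hT, hT']
          · simp [ind_of_adj H hy1, wt, hT, hy])
      rw [Finset.card_pair hne] at this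
      omega
    refine ⟨Sum.inr y, fun l hl _ => ?_⟩
    obtain ⟨y', hy'1, hy'2⟩ := exists_heavy_nbr src tgt H h1 x hT l hl
    rw [← hu y' hy'1 ⟨l, hy'2⟩]
    exact hy'2

/-- `e` is hubbed by `h`. -/
def Hub (e : E) (h : (V × Bool) ⊕ (E × Fin 6)) : Prop :=
  ∀ l : V × Bool, (l.1 = src e ∨ l.1 = tgt e) → h ≠ Sum.inl l → H.Adj h (Sum.inl l)

variable (hne : ∀ e, src e ≠ tgt e)

include hne in
lemma eight_le_val (e : E) (x : E × Fin 6) (hx : Hub src tgt H e (Sum.inr x)) : 8 ≤ val H x := by
  classical
  unfold val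
  have := card_le_sum (fun l : V × Bool => ind H (Sum.inr x) (Sum.inl l))
    (({src e, tgt e} : Finset V) ×ˢ (Finset.univ : Finset Bool)) 1
    (by
      rintro ⟨v, b⟩ hi
      simp only [Finset.mem_product, Finset.mem_insert, Finset.mem_singleton, Finset.mem_univ,
        and_true] at hi
      rw [ind_of_adj H (hx (v, b) hi (by simp))])
  rw [Finset.card_product, Finset.card_pair (hne e)] at this
  simp at this
  omega

variable (hsimple : ∀ e e', (src e = src e' ∨ src e = tgt e') → (tgt e = src e' ∨ tgt e = tgt e') →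
  e = e')
variable (htri : ∀ z e, z ≠ src e → z ≠ tgt e →
  (∃ f, (z = src f ∧ src e = tgt f) ∨ (z = tgt f ∧ src e = src f)) →
  (∃ f, (z = src f ∧ tgt e = tgt f) ∨ (z = tgt f ∧ tgt e = src f)) → False)
variable (h2 : ∀ a b, H.Adj a b →
  (Gad src tgt).Adj a b ∨ ∃ w, (Gad src tgt).Adj a w ∧ (Gad src tgt).Adj w b)

include h2 in
lemma heavy_light (x : E × Fin 6) (l : V × Bool) (h : H.Adj (Sum.inr x) (Sum.inl l)) :
    l.1 = src x.1 ∨ l.1 = tgt x.1 := by
  rcases h2 _ _ h with h | ⟨w, hw1, hw2⟩
  · exact h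
  · rcases w with w | w
    · exact absurd hw2 (by simp [Gad, gadAdj])
    · exact absurd hw1 (by simp [Gad, gadAdj])

include h2 in
lemma light_light (l l' : V × Bool) (h : H.Adj (Sum.inl l) (Sum.inl l')) (hll : l.1 ≠ l'.1) :
    ∃ f, (l.1 = src f ∧ l'.1 = tgt f) ∨ (l.1 = tgt f ∧ l'.1 = src f) := by
  rcases h2 _ _ h with h | ⟨w, hw1, hw2⟩
  · exact absurd h (by simp [Gad, gadAdj])
  · rcases w with w | w
    · exact absurd hw2 (by simp [Gad, gadAdj])
    · refine ⟨w.1, ?_⟩
      have a1 : l.1 = src w.1 ∨ l.1 = tgt w.1 := hw1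
      have a2 : l'.1 = src w.1 ∨ l'.1 = tgt w.1 := hw2
      rcases a1 with a1 | a1 <;> rcases a2 with a2 | a2
      · exact absurd (a1.trans a2.symm) hll
      · exact Or.inl ⟨a1, a2⟩
      · exact Or.inr ⟨a1, a2⟩
      · exact absurd (a1.trans a2.symm) hll

lemma lsum_symm (z z' : V) : lsum H z z' = lsum H z' z := by
  unfold lsum
  rw [Finset.sum_comm]
  refine Finset.sum_congr rfl fun b _ => Finset.sum_congr rfl fun b' _ => ?_
  rw [ind_symm]

lemma two_le_lsum_self {z : V} (hz : H.Adj (Sum.inl (z, false)) (Sum.inl (z, true))) :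
    2 ≤ lsum H z z := by
  unfold lsum
  simp only [Fintype.sum_bool]
  rw [ind_of_adj H hz, ind_of_adj H hz.symm]
  omega

include hne in
lemma two_le_lsum (e : E) (l : V × Bool) (hl : l.1 = src e ∨ l.1 = tgt e)
    (hub : Hub src tgt H e (Sum.inl l)) : 2 ≤ lsum H (src e) (tgt e) := by
  obtain ⟨z, b⟩ := l
  simp only at hl
  rcases hl with rfl | rfl
  · have a1 := ind_of_adj H (hub (tgt e, false) (Or.inr rfl) (by simp [hne e]))
    have a2 := ind_of_adj H (hub (tgt e, true) (Or.inr rfl) (by simp [hne e]))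
    unfold lsum
    simp only [Fintype.sum_bool]
    cases b <;> omega
  · rw [lsum_symm]
    have a1 := ind_of_adj H (hub (src e, false) (Or.inl rfl) (by simp [(hne e).symm]))
    have a2 := ind_of_adj H (hub (src e, true) (Or.inl rfl) (by simp [(hne e).symm]))
    unfold lsum
    simp only [Fintype.sum_bool]
    cases b <;> omega

/-- `e` is hubbed by a light vertex over one of its ends -/
def LH (e : E) : Prop :=
  ∃ l : V × Bool, (l.1 = src e ∨ l.1 = tgt e) ∧ Hub src tgt H e (Sum.inl l)

include hne hsimple htri h1 h2 in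
lemma sum_val_ge (e : E) (he : ¬ LH src tgt H e) : 18 ≤ ∑ j : Fin 6, val H (e, j) := by
  classical
  by_cases hh : ∃ h, Hub src tgt H e h
  · obtain ⟨h, hh⟩ := hh
    rcases h with l | x
    · exfalso
      have n1 : l.1 ≠ src e := fun h => he ⟨l, Or.inl h, hh⟩
      have n2 : l.1 ≠ tgt e := fun h => he ⟨l, Or.inr h, hh⟩
      have a1 := hh (src e, false) (Or.inl rfl) (by
        intro h; apply n1; rw [Sum.inl.inj h])
      have a2 := hh (tgt e, false) (Or.inr rfl) (by
        intro h; apply n2; rw [Sum.inl.inj h])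
      exact htri l.1 e n1 n2 (light_light src tgt H h2 _ _ a1 n1)
        (light_light src tgt H h2 _ _ a2 n2)
    · have a1 := heavy_light src tgt H h2 _ _ (hh (src e, false) (Or.inl rfl) (by simp))
      have a2 := heavy_light src tgt H h2 _ _ (hh (tgt e, false) (Or.inr rfl) (by simp))
      have hex : e = x.1 := hsimple e x.1 a1 a2
      obtain ⟨e', j⟩ := x
      simp only at hex
      subst hex
      have a3 := eight_le_val src tgt H hne e (e, j) hh
      have a4 : ∑ j' ∈ Finset.univ.erase j, val H (e, j') ≥ 5 * 2 := by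
        calc 5 * 2 = ∑ j' ∈ (Finset.univ : Finset (Fin 6)).erase j, 2 := by simp
          _ ≤ _ := Finset.sum_le_sum fun i _ => two_le_val src tgt H h1 (e, i)
      rw [← Finset.add_sum_erase _ _ (Finset.mem_univ j)]
      omega
  · have : ∀ j : Fin 6, 3 ≤ val H (e, j) := by
      intro j
      by_contra hlt
      exact hh (hub_of_val_lt src tgt H h1 (e, j) (by omega))
    calc 18 = ∑ j : Fin 6, 3 := by simp
      _ ≤ _ := Finset.sum_le_sum fun i _ => this i

include h1 in
lemma sum_val_ge' (e : E) : 12 ≤ ∑ j : Fin 6, val H (e, j) := by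
  calc 12 = ∑ j : Fin 6, 2 := by simp
    _ ≤ _ := Finset.sum_le_sum fun i _ => two_le_val src tgt H h1 (e, i)

include hne hsimple in
lemma sum_lsum_ge :
    ∑ z, lsum H z z + ∑ e, lsum H (src e) (tgt e) + ∑ e, lsum H (tgt e) (src e)
      ≤ ∑ p : V × V, lsum H p.1 p.2 := by
  classical
  let g : V ⊕ (E ⊕ E) → V × V := fun i => match i with
    | Sum.inl z => (z, z)
    | Sum.inr (Sum.inl e) => (src e, tgt e)
    | Sum.inr (Sum.inr e) => (tgt e, src e)
  have hg : Function.Injective g := by
    rintro (z | e | e) (z' | e' | e') h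
    · simp only [g, Prod.mk.injEq] at h; rw [h.1]
    · simp only [g, Prod.mk.injEq] at h; exact absurd (h.1.symm.trans h.2) (hne e')
    · simp only [g, Prod.mk.injEq] at h; exact absurd (h.2.symm.trans h.1) (hne e')
    · simp only [g, Prod.mk.injEq] at h; exact absurd (h.1.trans h.2.symm) (hne e)
    · simp only [g, Prod.mk.injEq] at h; rw [hsimple e e' (Or.inl h.1) (Or.inr h.2)]
    · simp only [g, Prod.mk.injEq] at h
      have := hsimple e e' (Or.inr h.1) (Or.inl h.2)
      subst this
      exact absurd h.1 (hne e)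
    · simp only [g, Prod.mk.injEq] at h; exact absurd (h.2.trans h.1.symm) (hne e)
    · simp only [g, Prod.mk.injEq] at h
      have := hsimple e e' (Or.inr h.2) (Or.inl h.1)
      subst this
      exact absurd h.2 (hne e)
    · simp only [g, Prod.mk.injEq] at h; rw [hsimple e e' (Or.inl h.2) (Or.inr h.1)]
  have h3 : ∑ i : V ⊕ (E ⊕ E), lsum H (g i).1 (g i).2 ≤ ∑ p : V × V, lsum H p.1 p.2 := by
    have := Finset.sum_map (Finset.univ : Finset (V ⊕ (E ⊕ E))) ⟨g, hg⟩
      (fun p : V × V => lsum H p.1 p.2)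
    simp only [Function.Embedding.coeFn_mk] at this
    rw [← this]
    exact Finset.sum_le_sum_of_subset (Finset.subset_univ _)
  simp only [Fintype.sum_sum_type] at h3
  simp only [g] at h3
  omega

include hne hsimple htri h1 h2 in
/-- **Lower bound.** Every rewiring of the gadget graph has at least `8 |E| + |C|` edges for
some vertex cover `C` of the underlying graph. -/
theorem gad_lower :
    ∃ C : Finset V, (∀ e, src e ∈ C ∨ tgt e ∈ C) ∧
      8 * Fintype.card E + C.card ≤ H.edgeSet.ncard := by
  classical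
  set C0 : Finset V := Finset.univ.filter
    (fun z => H.Adj (Sum.inl (z, false)) (Sum.inl (z, true))) with hC0
  set B : Finset E := Finset.univ.filter (fun e => ¬ LH src tgt H e) with hB
  refine ⟨C0 ∪ B.image src, ?_, ?_⟩
  · intro e
    by_cases he : LH src tgt H e
    · obtain ⟨⟨z, b⟩, hz, hub⟩ := he
      have hadj : H.Adj (Sum.inl (z, false)) (Sum.inl (z, true)) := by
        cases b
        · exact hub (z, true) hz (by simp)
        · exact (hub (z, false) hz (by simp)).symm
      have : z ∈ C0 := by simp [hC0, hadj]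
      simp only at hz
      rcases hz with rfl | rfl
      · left; exact Finset.mem_union_left _ this
      · right; exact Finset.mem_union_left _ this
    · left
      refine Finset.mem_union_right _ (Finset.mem_image_of_mem _ ?_)
      simp [hB, he]
  · have c1 : (C0 ∪ B.image src).card ≤ C0.card + B.card :=
      (Finset.card_union_le _ _).trans (Nat.add_le_add_left Finset.card_image_le _)
    have c2 : C0.card * 2 ≤ ∑ z, lsum H z z := card_le_sum _ C0 2 (by
      intro z hz
      simp only [hC0, Finset.mem_filter, Finset.mem_univ, true_and] at hz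
      exact two_le_lsum_self H hz)
    have c3 := sum_lsum_ge src tgt H hne hsimple
    have c4 : Fintype.card E * 16 + B.card * 2
        ≤ ∑ e, (lsum H (src e) (tgt e) + lsum H (tgt e) (src e) + ∑ j : Fin 6, val H (e, j)) := by
      have : B.card * 2 = ∑ e : E, if LH src tgt H e then 0 else 2 := by
        rw [Finset.sum_ite]
        simp [hB]
      rw [this]
      have h16 : Fintype.card E * 16 = ∑ e : E, 16 := by simp
      rw [h16, ← Finset.sum_add_distrib]
      refine Finset.sum_le_sum fun e _ => ?_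
      by_cases he : LH src tgt H e
      · rw [if_pos he]
        obtain ⟨l, hl, hub⟩ := he
        have a1 := two_le_lsum src tgt H hne e l hl hub
        have a2 := lsum_symm H (src e) (tgt e)
        have a3 := sum_val_ge' src tgt H h1 e
        omega
      · rw [if_neg he]
        have a3 := sum_val_ge src tgt H h1 hne hsimple htri h2 e he
        omega
    have c5 := total H
    have c6 : ∑ x : E × Fin 6, val H x = ∑ e, ∑ j : Fin 6, val H (e, j) :=
      Fintype.sum_prod_type _
    rw [Finset.sum_add_distrib, Finset.sum_add_distrib] at c4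
    omega

end lower

end Pool.Agent.Work.MP_891b03_co
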