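import Pool.Agent.Work.MP_891b03_co.Conn

set_option autoImplicit false
set_option linter.unusedSectionVars false
open Finset

namespace Pool.Agent.Work.MP_891b03_co

/-- local statistics of a graph on `Fin N` -/
noncomputable def statS (Γ : Σ N : ℕ, SimpleGraph (Fin N)) (r k : ℕ) (F : SimpleGraph (Fin k))
    (o : Fin k) : ℝ :=
  (({v : Fin Γ.1 | BallIso Γ.2 r v F o}.ncard : ℕ) : ℝ) / (Γ.1 : ℝ)

/-- admissible values -/
def costSet (Γ : Σ N : ℕ, SimpleGraph (Fin N)) : Set ℝ :=
  {x : ℝ | ∃ H : SimpleGraph (Fin Γ.1), H.Connected ∧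
    (∀ u v : Fin Γ.1, ((H.dist u v : ℝ) ≤ (2 : ℝ) * (Γ.2.dist u v : ℝ)) ∧
      ((Γ.2.dist u v : ℝ) ≤ (2 : ℝ) * (H.dist u v : ℝ))) ∧
    x = (H.edgeSet.ncard : ℝ) / (Γ.1 : ℝ)}

/-- the rewiring cost with constant `2` -/
noncomputable def costS (Γ : Σ N : ℕ, SimpleGraph (Fin N)) : ℝ := sInf (costSet Γ)

section transport

variable {W : Type} [Fintype W] (G : SimpleGraph W)

/-- transport to `Fin` -/
noncomputable def toFin : Σ N : ℕ, SimpleGraph (Fin N) :=
  ⟨Fintype.card W, G.comap (Fintype.equivFin W).symm⟩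

/-- the isomorphism -/
noncomputable def toFinIso : (toFin G).2 ≃g G := SimpleGraph.Iso.comap (Fintype.equivFin W).symm G

/-- the bijection with the transported vertex set -/
noncomputable def tE : W ≃ Fin (toFin G).1 := Fintype.equivFin W

lemma toFin_adj (a b : Fin (toFin G).1) :
    (toFin G).2.Adj a b ↔ G.Adj ((tE G).symm a) ((tE G).symm b) := Iff.rfl

lemma toFin_near (a b : Fin (toFin G).1) :
    Near (toFin G).2 a b ↔ Near G ((tE G).symm a) ((tE G).symm b) := by
  unfold Near
  constructor
  · rintro (h | ⟨w, h1, h2⟩)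
    · exact Or.inl h
    · exact Or.inr ⟨(tE G).symm w, h1, h2⟩
  · rintro (h | ⟨w, h1, h2⟩)
    · exact Or.inl h
    · refine Or.inr ⟨tE G w, ?_, ?_⟩
      · rw [toFin_adj]; simpa using h1
      · rw [toFin_adj]; simpa using h2

lemma toFin_connected (hG : G.Connected) : (toFin G).2.Connected :=
  (toFinIso G).connected_iff.2 hG

lemma toFin_stat (hG : G.Connected) (r k : ℕ) (F : SimpleGraph (Fin k)) (o : Fin k) :
    statS (toFin G) r k F o = (({x : W | BallIso G r x F o}.ncard : ℕ) : ℝ) / (Fintype.card W : ℝ) := by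
  unfold statS
  have h : {v : Fin (toFin G).1 | BallIso (toFin G).2 r v F o}.ncard
      = {x : W | BallIso G r x F o}.ncard := by
    have h1 : (fun v => toFinIso G v) '' {v : Fin (toFin G).1 | BallIso (toFin G).2 r v F o}
        = {x : W | BallIso G r x F o} := by
      ext x
      constructor
      · rintro ⟨v, hv, rfl⟩
        exact ((ballEquiv_of_iso (toFinIso G) (toFin_connected G hG) hG r v).iso_iff F o).1 hv
      · intro hx
        refine ⟨(toFinIso G).symm x, ?_, by simp⟩
        have := (ballEquiv_of_iso (toFinIso G) (toFin_connected G hG) hG r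
          ((toFinIso G).symm x)).iso_iff F o
        rw [RelIso.apply_symm_apply] at this
        exact this.2 hx
    rw [← h1, Set.ncard_image_of_injective _ (toFinIso G).injective]
  rw [h]
  rfl

lemma toFin_degree (v : Fin (toFin G).1) :
    ((toFin G).2.neighborSet v).ncard = (G.neighborSet (toFinIso G v)).ncard := by
  have h1 : (fun v => toFinIso G v) '' ((toFin G).2.neighborSet v) = G.neighborSet (toFinIso G v) := by
    ext x
    constructor
    · rintro ⟨w, hw, rfl⟩
      exact ((toFinIso G).map_adj_iff).2 hw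
    · intro hx
      refine ⟨(toFinIso G).symm x, ?_, by simp⟩
      have hx : G.Adj (toFinIso G v) x := hx
      change (toFin G).2.Adj v ((toFinIso G).symm x)
      rw [← (toFinIso G).map_adj_iff]
      simpa using hx
  rw [← h1, Set.ncard_image_of_injective _ (toFinIso G).injective]

lemma near_comap {W W' : Type} (H : SimpleGraph W') (φ : W ≃ W') (a b : W) :
    Near (H.comap φ) a b ↔ Near H (φ a) (φ b) := by
  unfold Near
  constructor
  · rintro (h | ⟨w, h1, h2⟩)
    · exact Or.inl h
    · exact Or.inr ⟨φ w, h1, h2⟩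
  · rintro (h | ⟨w, h1, h2⟩)
    · exact Or.inl h
    · refine Or.inr ⟨φ.symm w, ?_, ?_⟩
      · simpa using h1
      · simpa using h2

lemma ncard_comap {W W' : Type} (H : SimpleGraph W') (φ : W ≃ W') :
    (H.comap φ).edgeSet.ncard = H.edgeSet.ncard := by
  have := Nat.card_congr (SimpleGraph.Iso.comap φ H).mapEdgeSet
  exact this

lemma cost_lower (hG : G.Connected) (B : ℝ)
    (h : ∀ H : SimpleGraph W, (∀ a b, G.Adj a b → Near H a b) → (∀ a b, H.Adj a b → Near G a b) →
      B ≤ (H.edgeSet.ncard : ℝ)) :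
    B / (Fintype.card W : ℝ) ≤ costS (toFin G) := by
  have hC := toFin_connected G hG
  unfold costS
  apply le_csInf
  · refine ⟨_, (toFin G).2, hC, fun u v => ?_, rfl⟩
    have : (0 : ℝ) ≤ ((toFin G).2.dist u v : ℝ) := Nat.cast_nonneg _
    constructor <;> linarith
  · rintro x ⟨H, hH, hd, rfl⟩
    have hle : B ≤ ((H.comap (tE G)).edgeSet.ncard : ℝ) := by
      apply h
      · intro a b hab
        rw [near_comap]
        have hne : tE G a ≠ tE G b := fun h => hab.ne ((tE G).injective h)
        apply near_of_dist_le H hH _ _ hne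
        have h1 : (toFin G).2.Adj (tE G a) (tE G b) := by
          rw [toFin_adj]
          simpa using hab
        have h2 := (hd (tE G a) (tE G b)).1
        rw [SimpleGraph.dist_eq_one_iff_adj.2 h1] at h2
        norm_num at h2
        exact_mod_cast h2
      · intro a b hab
        have hab : H.Adj (tE G a) (tE G b) := hab
        have hne := hab.ne
        have h2 := (hd (tE G a) (tE G b)).2
        rw [SimpleGraph.dist_eq_one_iff_adj.2 hab] at h2
        norm_num at h2
        have h3 : Near (toFin G).2 (tE G a) (tE G b) :=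
          near_of_dist_le _ hC _ _ hne (by exact_mod_cast h2)
        rw [toFin_near] at h3
        simpa using h3
    rw [ncard_comap] at hle
    exact div_le_div_of_nonneg_right hle (Nat.cast_nonneg _)

lemma cost_upper (hG : G.Connected) (B : ℕ)
    (h : ∃ H : SimpleGraph W, (∀ a b, G.Adj a b → Near H a b) ∧ (∀ a b, H.Adj a b → Near G a b) ∧
      H.edgeSet.ncard ≤ B) :
    costS (toFin G) ≤ (B : ℝ) / (Fintype.card W : ℝ) := by
  obtain ⟨H, h1, h2, h3⟩ := h
  have hC := toFin_connected G hG
  set H' : SimpleGraph (Fin (toFin G).1) := H.comap (tE G).symm with hH'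
  have n1 : ∀ a b, (toFin G).2.Adj a b → Near H' a b := by
    intro a b hab
    rw [hH', near_comap]
    exact h1 _ _ hab
  have n2 : ∀ a b, H'.Adj a b → Near (toFin G).2 a b := by
    intro a b hab
    rw [toFin_near]
    exact h2 _ _ hab
  have hH'c : H'.Connected := connected_of_near _ _ hC n1
  have hmem : (H'.edgeSet.ncard : ℝ) / ((toFin G).1 : ℝ) ∈ costSet (toFin G) := by
    refine ⟨H', hH'c, fun u v => ?_, rfl⟩
    constructor
    · exact_mod_cast dist_le_of_near _ _ hC n1 u v
    · exact_mod_cast dist_le_of_near _ _ hH'c n2 u v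
  have hb : BddBelow (costSet (toFin G)) := by
    refine ⟨0, ?_⟩
    rintro x ⟨H, _, _, rfl⟩
    positivity
  refine (csInf_le hb hmem).trans ?_
  have : H'.edgeSet.ncard = H.edgeSet.ncard := ncard_comap H _
  rw [this]
  exact div_le_div_of_nonneg_right (by exact_mod_cast h3) (Nat.cast_nonneg _)

end transport

end Pool.Agent.Work.MP_891b03_co
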