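import Pool.Agent.Work.MP_891b03_co.Gadget

set_option autoImplicit false
set_option linter.unusedSectionVars false
open Finset

namespace Pool.Agent.Work.MP_891b03_co

/-- within two steps -/
def Near {W : Type} (G : SimpleGraph W) (a b : W) : Prop :=
  G.Adj a b ∨ ∃ w, G.Adj a w ∧ G.Adj w b

lemma Near.symm {W : Type} {G : SimpleGraph W} {a b : W} (h : Near G a b) : Near G b a := by
  rcases h with h | ⟨w, h1, h2⟩
  · exact Or.inl h.symm
  · exact Or.inr ⟨w, h2.symm, h1.symm⟩

lemma exists_walk_of_near {W : Type} (G H : SimpleGraph W)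
    (h : ∀ a b, G.Adj a b → Near H a b) {u v : W} (p : G.Walk u v) :
    ∃ q : H.Walk u v, q.length ≤ 2 * p.length := by
  induction p with
  | nil => exact ⟨SimpleGraph.Walk.nil, by simp⟩
  | cons hadj p ih =>
    obtain ⟨q, hq⟩ := ih
    rcases h _ _ hadj with h | ⟨w, h1, h2⟩
    · exact ⟨SimpleGraph.Walk.cons h q, by simp; omega⟩
    · exact ⟨SimpleGraph.Walk.cons h1 (SimpleGraph.Walk.cons h2 q), by simp; omega⟩

lemma dist_le_of_near {W : Type} (G H : SimpleGraph W) (hG : G.Connected)
    (h : ∀ a b, G.Adj a b → Near H a b) (u v : W) : H.dist u v ≤ 2 * G.dist u v := by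
  obtain ⟨p, hp⟩ := hG.exists_walk_length_eq_dist u v
  obtain ⟨q, hq⟩ := exists_walk_of_near G H h p
  exact (SimpleGraph.dist_le q).trans (by omega)

lemma connected_of_near {W : Type} (G H : SimpleGraph W) (hG : G.Connected)
    (h : ∀ a b, G.Adj a b → Near H a b) : H.Connected := by
  have := hG.nonempty
  refine ⟨fun u v => ?_⟩
  obtain ⟨p, hp⟩ := hG.exists_walk_length_eq_dist u v
  obtain ⟨q, hq⟩ := exists_walk_of_near G H h p
  exact ⟨q⟩

/-- converse: a distance bound gives nearness -/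
lemma near_of_dist_le {W : Type} (G : SimpleGraph W) (hG : G.Connected) (a b : W) (hab : a ≠ b)
    (h : G.dist a b ≤ 2) : Near G a b := by
  obtain ⟨p, hp⟩ := hG.exists_walk_length_eq_dist a b
  cases p with
  | nil => exact absurd rfl hab
  | cons h1 p =>
    cases p with
    | nil => exact Or.inl h1
    | cons h2 p =>
      cases p with
      | nil => exact Or.inr ⟨_, h1, h2⟩
      | cons h3 p => simp at hp; omega

section upper

variable {V E : Type} [Fintype V] [Fintype E] [DecidableEq V] [DecidableEq E]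
variable (src tgt : E → V) (C : Finset V)

/-- chosen end in the cover -/
def hubEnd (e : E) : V := if src e ∈ C then src e else tgt e
/-- the other end -/
def othEnd (e : E) : V := if src e ∈ C then tgt e else src e

/-- the edges of the economical rewiring -/
def phi : (E × Fin 6) ⊕ ({v // v ∈ C} ⊕ (E × Bool)) → Sym2 ((V × Bool) ⊕ (E × Fin 6))
  | Sum.inl x => s(Sum.inr x, Sum.inl (hubEnd src tgt C x.1, false))
  | Sum.inr (Sum.inl v) => s(Sum.inl (v.1, false), Sum.inl (v.1, true))
  | Sum.inr (Sum.inr x) =>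
      s(Sum.inl (hubEnd src tgt C x.1, false), Sum.inl (othEnd src tgt C x.1, x.2))

/-- the economical rewiring -/
def econ : SimpleGraph ((V × Bool) ⊕ (E × Fin 6)) :=
  SimpleGraph.fromEdgeSet (Set.range (phi src tgt C))

lemma econ_card : (econ src tgt C).edgeSet.ncard ≤ 8 * Fintype.card E + C.card := by
  classical
  unfold econ
  rw [SimpleGraph.edgeSet_fromEdgeSet]
  calc (Set.range (phi src tgt C) \ {e | e.IsDiag}).ncard ≤ (Set.range (phi src tgt C)).ncard :=
        Set.ncard_le_ncard Set.sdiff_subset (Set.toFinite _)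
    _ ≤ (Set.univ : Set ((E × Fin 6) ⊕ ({v // v ∈ C} ⊕ (E × Bool)))).ncard := by
        rw [← Set.image_univ]
        exact Set.ncard_image_le (Set.toFinite _)
    _ = 8 * Fintype.card E + C.card := by
        rw [Set.ncard_univ, Nat.card_eq_fintype_card]
        simp
        ring

variable (hne : ∀ e, src e ≠ tgt e) (hC : ∀ e, src e ∈ C ∨ tgt e ∈ C)
  (hinc : ∀ v, ∃ e, v = src e ∨ v = tgt e)

include hC in
lemma hubEnd_mem (e : E) : hubEnd src tgt C e ∈ C := by
  unfold hubEnd
  split_ifs with h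
  · exact h
  · exact (hC e).resolve_left h

lemma ends (e : E) (v : V) : (v = src e ∨ v = tgt e) ↔
    (v = hubEnd src tgt C e ∨ v = othEnd src tgt C e) := by
  unfold hubEnd othEnd
  split_ifs with h
  · rfl
  · exact or_comm

include hne in
lemma hub_ne_oth (e : E) : hubEnd src tgt C e ≠ othEnd src tgt C e := by
  unfold hubEnd othEnd
  split_ifs with h
  · exact hne e
  · exact (hne e).symm

lemma econ_adj_heavy (e : E) (j : Fin 6) :
    (econ src tgt C).Adj (Sum.inr (e, j)) (Sum.inl (hubEnd src tgt C e, false)) := by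
  unfold econ
  rw [SimpleGraph.fromEdgeSet_adj]
  exact ⟨⟨Sum.inl (e, j), rfl⟩, by simp⟩

include hC in
lemma econ_adj_pair (e : E) :
    (econ src tgt C).Adj (Sum.inl (hubEnd src tgt C e, false))
      (Sum.inl (hubEnd src tgt C e, true)) := by
  unfold econ
  rw [SimpleGraph.fromEdgeSet_adj]
  exact ⟨⟨Sum.inr (Sum.inl ⟨_, hubEnd_mem src tgt C hC e⟩), rfl⟩, by simp⟩

include hne in
lemma econ_adj_oth (e : E) (b : Bool) :
    (econ src tgt C).Adj (Sum.inl (hubEnd src tgt C e, false))
      (Sum.inl (othEnd src tgt C e, b)) := by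
  unfold econ
  rw [SimpleGraph.fromEdgeSet_adj]
  exact ⟨⟨Sum.inr (Sum.inr (e, b)), rfl⟩, by simp [hub_ne_oth src tgt C hne e]⟩

include hne hC in
lemma econ_near_aux (x : E × Fin 6) (l : V × Bool) (h : l.1 = src x.1 ∨ l.1 = tgt x.1) :
    Near (econ src tgt C) (Sum.inr x) (Sum.inl l) := by
  obtain ⟨e, j⟩ := x
  obtain ⟨v, b⟩ := l
  rw [ends src tgt C] at h
  simp only at h
  rcases h with rfl | rfl
  · cases b
    · exact Or.inl (econ_adj_heavy src tgt C e j)
    · exact Or.inr ⟨_, econ_adj_heavy src tgt C e j, econ_adj_pair src tgt C hC e⟩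
  · exact Or.inr ⟨_, econ_adj_heavy src tgt C e j, econ_adj_oth src tgt C hne e b⟩

include hne hC in
lemma econ_near (a b : (V × Bool) ⊕ (E × Fin 6)) (h : (Gad src tgt).Adj a b) :
    Near (econ src tgt C) a b := by
  rcases a with l | x <;> rcases b with l' | y
  · exact absurd h (by simp [Gad, gadAdj])
  · exact (econ_near_aux src tgt C hne hC y l h).symm
  · exact econ_near_aux src tgt C hne hC x l' h
  · exact absurd h (by simp [Gad, gadAdj])

include hinc in
lemma gad_near (a b : (V × Bool) ⊕ (E × Fin 6)) (h : (econ src tgt C).Adj a b) :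
    Near (Gad src tgt) a b := by
  unfold econ at h
  rw [SimpleGraph.fromEdgeSet_adj] at h
  obtain ⟨⟨i, hi⟩, hab⟩ := h
  have key : ∀ p q, phi src tgt C i = s(p, q) → Near (Gad src tgt) p q := by
    intro p q hpq
    suffices hs : ∃ p' q', phi src tgt C i = s(p', q') ∧ Near (Gad src tgt) p' q' by
      obtain ⟨p', q', h1, h2⟩ := hs
      rw [h1, Sym2.eq_iff] at hpq
      rcases hpq with ⟨rfl, rfl⟩ | ⟨rfl, rfl⟩
      · exact h2
      · exact h2.symm
    rcases i with ⟨e, j⟩ | v | ⟨e, b⟩
    · refine ⟨_, _, rfl, Or.inl ?_⟩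
      exact (ends src tgt C e _).2 (Or.inl rfl)
    · refine ⟨_, _, rfl, ?_⟩
      obtain ⟨e, he⟩ := hinc v.1
      exact Or.inr ⟨Sum.inr (e, 0), he, he⟩
    · refine ⟨_, _, rfl, Or.inr ⟨Sum.inr (e, 0), ?_, ?_⟩⟩
      · exact (ends src tgt C e _).2 (Or.inl rfl)
      · exact (ends src tgt C e _).2 (Or.inr rfl)
  exact key a b hi

end upper

end Pool.Agent.Work.MP_891b03_co
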